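import Pool.Agent.W5h86.MU.Defs

/-!
# Murre's conjectures and diagonal quotients: definitions
-/

set_option autoImplicit false

open CategoryTheory AlgebraicGeometry

universe u v w

namespace Pool.Agent.W5h77.MQ

open Pool.Agent.H914 Pool.Agent.H914.VarClass Pool.Agent.H914.VarClass.Obj Pool.Agent.W492.BB
  Pool.Agent.W550.Corr Pool.Agent.TH133 Pool.Agent.X308.S Pool.Agent.W5h86.MU

variable {k : Type u} [Field k] {𝒱 : VarClass k} {X Y : 𝒱.Obj} {G : Type}

/-- The power `X ^ (n + 1)`. -/
noncomputable def power (X : 𝒱.Obj) : ℕ → 𝒱.Obj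
  | 0 => X
  | n + 1 => X.prod (power X n)

/-- The map `f × f × ⋯ × f` on `X ^ (n + 1)`. -/
noncomputable def powerMap {X : 𝒱.Obj} (f : X ⟶ X) : ∀ n : ℕ, power X n ⟶ power X n
  | 0 => f
  | n + 1 => prodMap f (powerMap f n)

/-- The diagonal action on `X ^ (n + 1)`. -/
noncomputable def diag (m : G → (X ⟶ X)) (n : ℕ) (g : G) : power X n ⟶ power X n :=
  powerMap (m g) n

/-- The maps `m g : X ⟶ X` are an action of the group `G` (on the left). -/
def IsAction [Group G] (m : G → (X ⟶ X)) : Prop :=
  m 1 = 𝟙 X ∧ ∀ g h, m (g * h) = m h ≫ m g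

/-- The projector of the motive of the quotient of `Y` by the maps `m g`, `g ∈ S`: the average of
their graphs. -/
noncomputable def quotProj [Group G] (C : TheoryData.{u, v, 0} 𝒱 ℚ) (S : Subgroup G)
    (m : G → (Y ⟶ Y)) : C.A (Y.prod Y) := (Nat.card S : ℚ)⁻¹ • ∑ᶠ g : S, C.graph (m g)

/-- The external product of a self-correspondence of `Y` with itself. For the projector `e` of the
motive of a quotient `Q` it is the projector of the motive of `Q × Q`. -/
noncomputable def square (C : TheoryData.{u, v, 0} 𝒱 ℚ) (e : C.A (Y.prod Y)) :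
    C.A ((Y.prod Y).prod (Y.prod Y)) :=
  C.mul (C.up (prodMap (fst Y Y) (fst Y Y)) e) (C.up (prodMap (snd Y Y) (snd Y Y)) e)

/-- `p` is a projector and `(Y, p)` is a direct factor of `(Y, e)`. -/
structure IsFactor (C : TheoryData.{u, v, 0} 𝒱 ℚ) (e p : C.A (Y.prod Y)) : Prop where
  deg : C.Deg Y.dim p
  idem : C.comp p p = p
  left : C.comp e p = p
  right : C.comp p e = p

/-- The intersection numbers of `z ∈ CH^i(Y)` with the classes `x` and `y` of dimension `i` are
different. -/
def Separates (C : TheoryData.{u, v, 0} 𝒱 ℚ) (z x y : C.A Y) : Prop :=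
  ∃ q r : ℚ, q ≠ r ∧ HasDegree C (C.mul z x) q ∧ HasDegree C (C.mul z y) r

/-- The element `g` moves some self-correspondence `w` of degree zero of a power `P = X ^ (n + 1)`
modulo numerical equivalence: the intersection numbers of `(g × g)^* w` and `w` with some `z` are
different. -/
def Moves (C : TheoryData.{u, v, 0} 𝒱 ℚ) (m : G → (X ⟶ X)) (g : G) : Prop :=
  ∃ (n : ℕ) (z w : C.A ((power X n).prod (power X n))), C.Deg (power X n).dim z ∧
    C.Deg (power X n).dim w ∧ Separates C z (C.up (prodMap (diag m n g) (diag m n g)) w) w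

/-- The graph of `g` is not numerically equivalent to the diagonal of `X`. -/
def Visible (C : TheoryData.{u, v, 0} 𝒱 ℚ) (m : G → (X ⟶ X)) (g : G) : Prop :=
  ∃ z : C.A (X.prod X), C.Deg X.dim z ∧ Separates C z (C.graph (m g)) (dg C X)

section Weil

variable {C : TheoryData.{u, v, 0} 𝒱 ℚ} {K : Type w} [Field K] (H : WeilTheoryData.{u, v, w} C K)

/-- Murre's conjectures for all direct factors of the motives of the diagonal quotients
`X ^ (n + 1) / S`, and their twists. -/
def MurreFactors [Group G] (m : G → (X ⟶ X)) (S : Subgroup G) : Prop :=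
  ∀ (n : ℕ) (p : C.A ((power X n).prod (power X n))) (l : ℤ),
    IsFactor C (quotProj C S (diag m n)) p → MurreFor H p l

/-- Murre's conjectures for the diagonal quotients `Q = X ^ (n + 1) / G` and for their squares
`Q × Q`, for all `n ≥ N`. -/
def MurreQuotients [Group G] (m : G → (X ⟶ X)) (N : ℕ) : Prop :=
  ∀ n ≥ N, MurreFor H (quotProj C ⊤ (diag m n)) 0 ∧
    MurreFor H (square C (quotProj C ⊤ (diag m n))) 0

/-- Murre's conjectures for all motives `(X ^ (n + 1), p, l)`. -/
def MurrePowers (H : WeilTheoryData.{u, v, w} C K) (X : 𝒱.Obj) : Prop :=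
  ∀ (n : ℕ) (p : C.A ((power X n).prod (power X n))) (l : ℤ),
    C.Deg (power X n).dim p → C.comp p p = p → MurreFor H p l

end Weil

end Pool.Agent.W5h77.MQ
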