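import Pool.Agent.W5h77.MQ.Graph
import Pool.Agent.W5h77.MQ.Stmt
import Pool.Agent.W5h86.MU.Fam

/-!
# Diagonal actions on powers; degrees
-/

set_option autoImplicit false

open CategoryTheory AlgebraicGeometry

universe u v w

namespace Pool.Agent.W5h77.MQ

open Pool.Agent.H914 Pool.Agent.H914.VarClass Pool.Agent.H914.VarClass.Obj Pool.Agent.W492.BB
  Pool.Agent.W550.Corr Pool.Agent.TH133 Pool.Agent.X308.S Pool.Agent.Y148.BB Pool.Agent.W5h86.MU

set_option linter.unusedSectionVars false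

variable {k : Type u} [Field k] {𝒱 : VarClass k}

section act

variable {X Y Z W : 𝒱.Obj} {G : Type} [Group G]

lemma pm_comp {X X' X'' Z Z' Z'' : 𝒱.Obj} (f : X ⟶ X') (g : Z ⟶ Z') (f' : X' ⟶ X'')
    (g' : Z' ⟶ Z'') : prodMap f g ≫ prodMap f' g' = prodMap (f ≫ f') (g ≫ g') := by
  apply prod_ext <;> simp

lemma pm_id (X Y : 𝒱.Obj) : prodMap (𝟙 X) (𝟙 Y) = 𝟙 (X.prod Y) := by
  apply prod_ext <;> simp

/-- The diagonal action on `X × Y`. -/
noncomputable def pAct (a : G →* Aut X) (b : G →* Aut Y) : G →* Aut (X.prod Y) where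
  toFun g :=
    { hom := prodMap (a g).hom (b g).hom
      inv := prodMap (a g).inv (b g).inv
      hom_inv_id := (pm_comp _ _ _ _).trans ((congrArg₂ prodMap (Iso.hom_inv_id (a g))
        (Iso.hom_inv_id (b g))).trans (pm_id _ _))
      inv_hom_id := (pm_comp _ _ _ _).trans ((congrArg₂ prodMap (Iso.inv_hom_id (a g))
        (Iso.inv_hom_id (b g))).trans (pm_id _ _)) }
  map_one' := by
    apply Iso.ext
    change prodMap (a 1).hom (b 1).hom = 𝟙 (X.prod Y)
    rw [map_one, map_one]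
    exact pm_id _ _
  map_mul' g h := by
    apply Iso.ext
    change prodMap (a (g * h)).hom (b (g * h)).hom =
      prodMap (a h).hom (b h).hom ≫ prodMap (a g).hom (b g).hom
    rw [map_mul, map_mul, pm_comp]
    rfl

lemma pAct_hom (a : G →* Aut X) (b : G →* Aut Y) (g : G) :
    (pAct a b g).hom = prodMap (a g).hom (b g).hom := rfl

/-- The diagonal action on the power `X ^ (n + 1)`. -/
noncomputable def powAct (a : G →* Aut X) : ∀ n : ℕ, G →* Aut (power X n)
  | 0 => a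
  | n + 1 => pAct a (powAct a n)

lemma powAct_hom (a : G →* Aut X) (n : ℕ) (g : G) :
    (powAct a n g).hom = powerMap (a g).hom n := by
  induction n with
  | zero => rfl
  | succ n ih =>
    change prodMap (a g).hom (powAct a n g).hom = prodMap (a g).hom (powerMap (a g).hom n)
    rw [ih]

/-- The maps of an action. -/
noncomputable def hm (c : G →* Aut Z) (g : G) : Z ⟶ Z := (c g).hom

lemma hm_mul (c : G →* Aut Z) (g h : G) : hm c h ≫ hm c g = hm c (g * h) := by
  have h1 : c (g * h) = c g * c h := map_mul c g h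
  have h2 : (c (g * h)).hom = (c h).hom ≫ (c g).hom := by rw [h1]; rfl
  exact h2.symm

lemma hm_one (c : G →* Aut Z) : hm c 1 = 𝟙 Z := by
  have h1 : c 1 = 1 := map_one c
  have h2 : (c 1).hom = 𝟙 Z := by rw [h1]; rfl
  exact h2

lemma hm_powAct (a : G →* Aut X) (n : ℕ) : hm (powAct a n) = diag (hm a) n :=
  funext fun g => powAct_hom a n g

/-- An action in the sense of the statements is given by a homomorphism. -/
lemma exists_act {m : G → (X ⟶ X)} (hm' : IsAction m) : ∃ a : G →* Aut X, hm a = m := by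
  obtain ⟨h1, h2⟩ := hm'
  have h3 : ∀ g, m g ≫ m g⁻¹ = 𝟙 X := fun g => by rw [← h2, inv_mul_cancel, h1]
  have h4 : ∀ g, m g⁻¹ ≫ m g = 𝟙 X := fun g => by rw [← h2, mul_inv_cancel, h1]
  refine ⟨{ toFun := fun g => ⟨m g, m g⁻¹, h3 g, h4 g⟩, map_one' := ?_, map_mul' := ?_ }, rfl⟩
  · exact Iso.ext h1
  · intro g h
    exact Iso.ext (h2 g h)

/-- An equivariant isomorphism. -/
structure EqIso (b : G →* Aut Y) (c : G →* Aut Z) where
  dim : Y.dim = Z.dim
  φ : Y ⟶ Z
  ψ : Z ⟶ Y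
  φψ : φ ≫ ψ = 𝟙 Y
  ψφ : ψ ≫ φ = 𝟙 Z
  eqv : ∀ g, (b g).hom ≫ φ = φ ≫ (c g).hom

namespace EqIso

variable {b : G →* Aut Y} {c : G →* Aut Z} {d : G →* Aut W}

lemma eqv' (i : EqIso b c) (g : G) : (c g).hom ≫ i.ψ = i.ψ ≫ (b g).hom := by
  have h1 : i.ψ ≫ ((b g).hom ≫ i.φ) ≫ i.ψ = i.ψ ≫ (i.φ ≫ (c g).hom) ≫ i.ψ := by rw [i.eqv]
  rw [Category.assoc, i.φψ, Category.comp_id, Category.assoc, ← Category.assoc i.ψ i.φ, i.ψφ,
    Category.id_comp] at h1
  exact h1.symm

/-- The inverse. -/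
def symm (i : EqIso b c) : EqIso c b := ⟨i.dim.symm, i.ψ, i.φ, i.ψφ, i.φψ, i.eqv'⟩

/-- The composition. -/
def trans (i : EqIso b c) (j : EqIso c d) : EqIso b d where
  dim := i.dim.trans j.dim
  φ := i.φ ≫ j.φ
  ψ := j.ψ ≫ i.ψ
  φψ := by
    rw [Category.assoc, ← Category.assoc j.φ, j.φψ, Category.id_comp, i.φψ]
  ψφ := by
    rw [Category.assoc, ← Category.assoc i.ψ, i.ψφ, Category.id_comp, j.ψφ]
  eqv g := by
    rw [← Category.assoc, i.eqv, Category.assoc, j.eqv, Category.assoc]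

/-- The identity. -/
def refl (b : G →* Aut Y) : EqIso b b where
  dim := rfl
  φ := 𝟙 Y
  ψ := 𝟙 Y
  φψ := Category.comp_id _
  ψφ := Category.comp_id _
  eqv g := (Category.comp_id (b g).hom).trans (Category.id_comp (b g).hom).symm

/-- Products. -/
noncomputable def right (a : G →* Aut X) (i : EqIso b c) : EqIso (pAct a b) (pAct a c) where
  dim := by rw [dim_prod, dim_prod, i.dim]
  φ := prodMap (𝟙 X) i.φ
  ψ := prodMap (𝟙 X) i.ψ
  φψ := by rw [pm_comp, i.φψ, Category.comp_id, pm_id]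
  ψφ := by rw [pm_comp, i.ψφ, Category.comp_id, pm_id]
  eqv g := by
    have h1 : prodMap (a g).hom (b g).hom ≫ prodMap (𝟙 X) i.φ =
        prodMap (𝟙 X) i.φ ≫ prodMap (a g).hom (c g).hom := by
      rw [pm_comp, pm_comp, i.eqv]
      congr 1
    exact h1

/-- Associativity. -/
noncomputable def assoc (a : G →* Aut X) (b : G →* Aut Y) (c : G →* Aut Z) :
    EqIso (pAct (pAct a b) c) (pAct a (pAct b c)) where
  dim := by rw [dim_prod, dim_prod, dim_prod, dim_prod, Nat.add_assoc]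
  φ := aI X Y Z
  ψ := aJ X Y Z
  φψ := aI_aJ
  ψφ := aJ_aI
  eqv g := by
    have h1 : prodMap (prodMap (a g).hom (b g).hom) (c g).hom ≫ aI X Y Z =
        aI X Y Z ≫ prodMap (a g).hom (prodMap (b g).hom (c g).hom) := by
      apply prod_ext
      · simp [aI, comp_lift, prodMap]
      · apply prod_ext <;> simp [aI, comp_lift, prodMap]
    exact h1

end EqIso

/-- `X ^ (m + 1) × X ^ (n + 1) ≅ X ^ (n + m + 2)`. -/
noncomputable def powIso (a : G →* Aut X) (n : ℕ) : ∀ m : ℕ,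
    EqIso (pAct (powAct a m) (powAct a n)) (powAct a (n + m + 1))
  | 0 => EqIso.refl _
  | m + 1 => (EqIso.assoc a (powAct a m) (powAct a n)).trans ((powIso a n m).right a)

end act

section degree

variable {C : TheoryData.{u, v, 0} 𝒱 ℚ} [hC : IsChowProj C] {X Y Z W V M : 𝒱.Obj}

include hC

lemma hd_smul {x : C.A X} {q : ℚ} (r : ℚ) (h : HasDegree C x q) : HasDegree C (r • x) (r * q) := by
  intro Y
  rw [map_smul, map_smul, map_smul, map_smul, (h Y).1, (h Y).2, smul_smul]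
  exact ⟨rfl, rfl⟩

lemma hd_add {x y : C.A X} {q r : ℚ} (h : HasDegree C x q) (h' : HasDegree C y r) :
    HasDegree C (x + y) (q + r) := by
  intro Y
  rw [map_add, map_add, map_add, map_add, (h Y).1, (h Y).2, (h' Y).1, (h' Y).2, add_smul]
  exact ⟨rfl, rfl⟩

lemma hd_pull (f : X ⟶ Y) (g : Y ⟶ X) (h1 : f ≫ g = 𝟙 X) (h2 : g ≫ f = 𝟙 Y) {y : C.A Y} {q : ℚ}
    (h : HasDegree C y q) : HasDegree C (C.pull f y) q := by
  rw [pull_iso C f g h1 h2]
  exact hasDegree_push g h

lemma hd_of_pull (f : X ⟶ Y) (g : Y ⟶ X) (h1 : f ≫ g = 𝟙 X) (h2 : g ≫ f = 𝟙 Y) {y : C.A Y}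
    {q : ℚ} (h : HasDegree C (C.pull f y) q) : HasDegree C y q := by
  have h3 := hasDegree_push f h
  rwa [push_pull_iso C f g h1 h2] at h3

lemma push_snd_ext (x : C.A X) {q : ℚ} (hx : HasDegree C x q) (y : C.A Y) :
    C.push (snd X Y) (C.ext x y) = q • y := by
  rw [TheoryData.ext, C.proj_right, (hx Y).1, smul_mul_assoc, one_mul]

lemma push_fst_ext (x : C.A X) {q : ℚ} {y : C.A Y} (hy : HasDegree C y q) :
    C.push (fst X Y) (C.ext x y) = q • x := by
  rw [TheoryData.ext, C.proj_left, (hy X).2, mul_smul_comm, mul_one]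

/-- The degree of a product. -/
lemma hd_ext {x : C.A X} {y : C.A Y} {q r : ℚ} (hx : HasDegree C x q) (hy : HasDegree C y r) :
    HasDegree C (C.ext x y) (q * r) := by
  intro V
  constructor
  · have e1 : snd (X.prod Y) V = prodMap (snd X Y) (𝟙 V) ≫ snd Y V := by simp
    rw [e1, C.push_comp, ← C.base_fst, push_snd_ext x hx, map_smul, map_smul, (hy V).1, smul_smul]
  · have e1 : fst V (X.prod Y) = prodMap (𝟙 V) (snd X Y) ≫ fst V Y := by simp
    rw [e1, C.push_comp, ← C.base_snd, push_snd_ext x hx, map_smul, map_smul, (hy V).2, smul_smul]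

lemma exists_pt (X : 𝒱.Obj) : ∃ o : C.A X, o ∈ C.gr X X.dim ∧ HasDegree C o 1 := by
  obtain ⟨o, ho, h1, h2⟩ := hC.exists_deg_one X
  exact ⟨o, ho, fun Y => by rw [one_smul]; exact ⟨h2 Y, h1 Y⟩⟩

lemma ext_mul_ext (x x' : C.A X) (y y' : C.A Y) :
    C.ext x y * C.ext x' y' = C.ext (x * x') (y * y') := by
  simp only [TheoryData.ext, map_mul]
  generalize C.pull _ x = a
  generalize C.pull _ y = b
  generalize C.pull _ x' = c
  generalize C.pull _ y' = d
  rw [mul_assoc, mul_assoc, ← mul_assoc b c d, ch_comm C b c, mul_assoc]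

variable {K : Type w} [Field K] (H : WeilTheoryData.{u, v, w} C K) [hH : IsWeilProj H]

include hH

lemma hd_unique {x : C.A X} {q r : ℚ} (hq : HasDegree C x q) (hr : HasDegree C x r) : q = r :=
  hasDegree_unique H hq hr

end degree

end Pool.Agent.W5h77.MQ
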