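import Pool.Agent.W5h77.MQ.Prod

/-!
# Murre's conjectures for the direct factors of a motive
-/

set_option autoImplicit false

open CategoryTheory AlgebraicGeometry

universe u v w

namespace Pool.Agent.W5h77.MQ

open Pool.Agent.H914 Pool.Agent.H914.VarClass Pool.Agent.H914.VarClass.Obj Pool.Agent.W492.BB
  Pool.Agent.W550.Corr Pool.Agent.TH133 Pool.Agent.X308.S Pool.Agent.Y148.BB Pool.Agent.W5h86.MU

set_option linter.unusedSectionVars false

variable {k : Type u} [Field k] {𝒱 : VarClass k} {C : TheoryData.{u, v, 0} 𝒱 ℚ}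
  [hC : IsChowProj C] {K : Type w} [Field K]
  {H : WeilTheoryData.{u, v, w} C K} [hH : IsWeilProj H] {X Y Z W : 𝒱.Obj}
  {e : Cor C X} {s : Finset ℤ} {P : ℤ → Cor C X}

include hC hH

namespace GoodM

/-- There are no phantoms. -/
theorem no_phantom (hP : GoodM H e s P) {u : Cor C X} (hu : u ∈ cor0 C X) (huu : u * u = u)
    (hue : u * e = u) (hcl : H.cl (X := X.prod X) u = 0) : u = 0 := by
  obtain ⟨m0, hm0⟩ : ∃ m0 : ℤ, ∀ w ∈ s, m0 ≤ w := by
    rcases s.eq_empty_or_nonempty with hs | hs
    · exact ⟨0, fun w hw => by rw [hs] at hw; simp at hw⟩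
    · exact ⟨s.min' hs, fun w hw => s.min'_le w hw⟩
  have key : ∀ n : ℕ, ∀ a : ℤ, a < m0 + n → u * P a = 0 := by
    intro n
    induction n with
    | zero =>
      intro a ha
      rw [hP.dec.out a (fun hcon => by have := hm0 a hcon; simp at ha; omega), mul_zero]
    | succ n ih =>
      intro a ha
      rcases lt_or_eq_of_le (show a ≤ m0 + n by push_cast at ha; omega) with h | h
      · exact ih a h
      · have h1 : u * P a = ∑ b ∈ s, u * (P b * u * P a) := by
          have h2 : u * P a = u * e * (u * P a) := by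
            rw [hue, ← mul_assoc, huu]
          rw [← hP.dec.sum, Finset.mul_sum, Finset.sum_mul] at h2
          rw [h2]
          apply Finset.sum_congr rfl
          intro b _
          simp only [mul_assoc]
        rw [h1]
        apply Finset.sum_eq_zero
        intro b _
        rcases lt_trichotomy b a with hb | hb | hb
        · rw [← mul_assoc, ← mul_assoc, ih b (by omega), zero_mul, zero_mul]
        · subst hb
          rw [hP.diag u hu hcl, mul_zero]
        · rw [hP.raise u hu b a hb, mul_zero]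
  rw [← hue, ← hP.dec.sum, Finset.mul_sum]
  refine Finset.sum_eq_zero fun a _ => ?_
  exact key (a - m0 + 1).toNat a (by omega)

/-- The truncation: the parts of weight at most `w`. -/
noncomputable def trunc (s : Finset ℤ) (P : ℤ → Cor C X) (w : ℤ) : Cor C X :=
  ∑ b ∈ s.filter (fun b => b ≤ w), P b

lemma trunc_mem (hP : GoodM H e s P) (w : ℤ) : trunc s P w ∈ cor0 C X :=
  (cor0 C X).sum_mem fun b _ => hP.dec.mem b

lemma e_sub_trunc (hP : GoodM H e s P) (w : ℤ) : e - trunc s P w =
    ∑ b ∈ s.filter (fun b => ¬ b ≤ w), P b := by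
  rw [sub_eq_iff_eq_add', ← hP.dec.sum, trunc]
  exact (Finset.sum_filter_add_sum_filter_not s (fun b => b ≤ w) P).symm

/-- Correspondences preserve the truncation. -/
lemma trunc_mul (hP : GoodM H e s P) {r : Cor C X} (hr : r ∈ cor0 C X) (her : e * r = r)
    (w : ℤ) : r * trunc s P w = trunc s P w * r * trunc s P w := by
  have h1 : (e - trunc s P w) * r * trunc s P w = 0 := by
    rw [hP.e_sub_trunc, trunc, Finset.sum_mul, Finset.sum_mul_sum]
    apply Finset.sum_eq_zero
    intro a ha
    apply Finset.sum_eq_zero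
    intro b hb
    rw [Finset.mem_filter] at ha hb
    exact hP.raise r hr a b (by have := ha.2; have := hb.2; omega)
  rw [sub_mul, her, sub_mul, sub_eq_zero] at h1
  exact h1

lemma e_trunc (hP : GoodM H e s P) (w : ℤ) : e * trunc s P w = trunc s P w := by
  rw [trunc, Finset.mul_sum]
  exact Finset.sum_congr rfl fun b _ => hP.dec.left b

lemma trunc_e (hP : GoodM H e s P) (w : ℤ) : trunc s P w * e = trunc s P w := by
  rw [trunc, Finset.sum_mul]
  exact Finset.sum_congr rfl fun b _ => hP.dec.right b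

lemma trunc_idem (hP : GoodM H e s P) (w : ℤ) : trunc s P w * trunc s P w = trunc s P w := by
  have h1 := hP.trunc_mul hP.dec.em hP.dec.ee w
  rw [hP.e_trunc, hP.trunc_e] at h1
  exact h1.symm

lemma actH_trunc (hP : GoodM H e s P) (w : ℤ) {m : ℤ} {a : H.A X} (ha : a ∈ H.gr X m)
    (hm : w < m) : actH C X H (trunc s P w) a = 0 := by
  rw [trunc, map_sum, LinearMap.sum_apply]
  apply Finset.sum_eq_zero
  intro b hb
  rw [Finset.mem_filter] at hb
  exact hP.dec.act b m a ha (by have := hb.2; omega)

lemma actH_e_sub_trunc (hP : GoodM H e s P) (w : ℤ) {m : ℤ} {a : H.A X} (ha : a ∈ H.gr X m)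
    (hm : m ≤ w) : actH C X H (e - trunc s P w) a = 0 := by
  rw [hP.e_sub_trunc, map_sum, LinearMap.sum_apply]
  apply Finset.sum_eq_zero
  intro b hb
  rw [Finset.mem_filter] at hb
  exact hP.dec.act b m a ha (by have := hb.2; omega)

/-- Idempotents of pure weights `w < w'` do not raise the weights. -/
theorem mul_eq_zero_of_lt (hP : GoodM H e s P) {r r' : Cor C X} (hr : r ∈ cor0 C X)
    (hr' : r' ∈ cor0 C X) (hrr : r * r = r) (hrr' : r' * r' = r') (her : e * r = r)
    (hre : r * e = r) (her' : e * r' = r') (hre' : r' * e = r') {w w' : ℤ} (hw : w < w')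
    (hact : ∀ (m : ℤ) (a : H.A X), m ≠ w → a ∈ H.gr X m → actH C X H r a = 0)
    (hact' : ∀ (m : ℤ) (a : H.A X), m ≠ w' → a ∈ H.gr X m → actH C X H r' a = 0) :
    r' * r = 0 := by
  set T := trunc s P w with hT
  have hem : T ∈ cor0 C X := hP.trunc_mem w
  have hee : T * T = T := hP.trunc_idem w
  have h1 : r' * T = 0 := by
    apply hP.no_phantom ((cor0 C X).mul_mem hr' hem)
    · have h2 : r' * T = T * r' * T := hP.trunc_mul hr' her' w
      calc r' * T * (r' * T) = r' * (T * r' * T) := by simp only [mul_assoc]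
        _ = r' * (r' * T) := by rw [← h2]
        _ = r' * T := by rw [← mul_assoc, hrr']
    · rw [mul_assoc, hP.trunc_e]
    · apply actH_ext
      intro m x hx
      rw [map_mul, Module.End.mul_apply]
      by_cases hm : m = w'
      · rw [hP.actH_trunc w hx (by omega), map_zero]
      · exact hact' m _ hm (actH_mem0 hem hx)
  have h2 : (e - T) * r = 0 := by
    have hfm : e - T ∈ cor0 C X := (cor0 C X).sub_mem hP.dec.em hem
    apply hP.no_phantom ((cor0 C X).mul_mem hfm hr)
    · have h3 : (e - T) * r * T = 0 := by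
        have h4 : r * T = T * r * T := hP.trunc_mul hr her w
        rw [sub_mul, her, sub_mul, ← h4, sub_self]
      have h5 : (e - T) * r * (e - T) = (e - T) * r := by
        rw [mul_sub, h3, sub_zero, mul_assoc, hre]
      calc (e - T) * r * ((e - T) * r) = (e - T) * r * (e - T) * r := by simp only [mul_assoc]
        _ = (e - T) * r * r := by rw [h5]
        _ = (e - T) * r := by rw [mul_assoc, hrr]
    · rw [mul_assoc, hre]
    · apply actH_ext
      intro m x hx
      rw [map_mul, Module.End.mul_apply]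
      by_cases hm : m = w
      · exact hP.actH_e_sub_trunc w (actH_mem0 hr hx) (by omega)
      · rw [hact m x hm hx, map_zero]
  calc r' * r = r' * T * r + r' * ((e - T) * r) := by
        rw [sub_mul, her, mul_sub, ← mul_assoc r' T r, add_sub_cancel]
    _ = 0 := by rw [h1, h2, zero_mul, mul_zero, add_zero]

end GoodM

lemma mck_right {p : Cor C X} {n : ℤ} {π : ℤ → Cor C X} (h : IsMotiveCK H p n π) (i : ℤ) :
    π i * p = π i := by
  obtain ⟨s, hs, hsum⟩ := mck_sum h
  rw [← hsum, Finset.mul_sum]
  by_cases hi : i ∈ s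
  · rw [Finset.sum_eq_single_of_mem i hi (fun j _ hj => mck_orth h (Ne.symm hj)), mck_idem h]
  · rw [hs i hi]
    simp

/-- The filtration does not depend on the decomposition. -/
theorem motFil_le' (hP : GoodM H e s P) {p : Cor C X} (hep : e * p = p) (hpe : p * e = p) {n : ℤ}
    {π π' : ℤ → Cor C X} (h : IsMotiveCK H p n π) (h' : IsMotiveCK H p n π') (l ν : ℤ) :
    motFil C (X := X) n π l ν ≤ motFil C (X := X) n π' l ν := by
  unfold motFil
  refine iSup_le fun ⟨i, hi⟩ => ?_
  rintro _ ⟨x, hx, rfl⟩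
  obtain ⟨s', hs, hsum⟩ := mck_sum h'
  set y : C.A X := actC C X (π i) x with hy
  have h1 : y = ∑ j ∈ s', actC C X (π' j) y := by
    rw [← LinearMap.sum_apply, ← map_sum, hsum, hy, ← actC_mul (H := H), mck_left h]
  change y ∈ _
  rw [h1]
  apply Submodule.sum_mem
  intro j _
  have el : ∀ i, e * π i = π i := fun i => by rw [← mck_left h i, ← mul_assoc, hep]
  have er : ∀ i, π i * e = π i := fun i => by rw [← mck_right h i, mul_assoc, hpe]
  have el' : ∀ i, e * π' i = π' i := fun i => by rw [← mck_left h' i, ← mul_assoc, hep]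
  have er' : ∀ i, π' i * e = π' i := fun i => by rw [← mck_right h' i, mul_assoc, hpe]
  by_cases hji : j < i
  · have h2 : π' j * π i = 0 := by
      exact hP.mul_eq_zero_of_lt (w := 2 * X.dim - (i - 2 * n)) (w' := 2 * X.dim - (j - 2 * n))
        (h.deg i) (h'.deg j) (mck_idem h i) (mck_idem h' j) (el i) (er i) (el' j) (er' j)
        (by omega)
        (fun m a hm ha => mck_act h i m a hm ha) (fun m a hm ha => mck_act h' j m a hm ha)
    rw [hy, ← actC_mul (H := H), h2, map_zero, LinearMap.zero_apply]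
    exact Submodule.zero_mem _
  · have hle : 2 * l + ν ≤ j := by omega
    apply Submodule.mem_iSup_of_mem (⟨j, hle⟩ : {i : ℤ // 2 * l + ν ≤ i})
    exact ⟨y, actC_mem (H := H) (h.deg i) hx, rfl⟩

section ideals

omit hH in
/-- The correspondences which factor through the part of weight `w`. -/
noncomputable def wJ (P : ℤ → Cor C X) (w : ℤ) : Submodule ℚ (Cor C X) :=
  Submodule.span ℚ {z | ∃ x ∈ cor0 C X, ∃ y ∈ cor0 C X, z = x * P w * y}

lemma wJ_le (hP : GoodM H e s P) {w : ℤ} {x : Cor C X} (hx : x ∈ wJ P w) : x ∈ cor0 C X := by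
  have h1 : wJ P w ≤ Subalgebra.toSubmodule (cor0 C X) := by
    unfold wJ
    rw [Submodule.span_le]
    rintro _ ⟨x, hx, y, hy, rfl⟩
    exact (cor0 C X).mul_mem ((cor0 C X).mul_mem hx (hP.dec.mem w)) hy
  exact h1 hx

omit hH in
lemma wJ_left {w : ℤ} {a x : Cor C X} (ha : a ∈ cor0 C X) (hx : x ∈ wJ P w) :
    a * x ∈ wJ P w := by
  unfold wJ at hx
  induction hx using Submodule.span_induction with
  | mem x hx =>
    obtain ⟨x, hx, y, hy, rfl⟩ := hx
    apply Submodule.subset_span
    exact ⟨a * x, (cor0 C X).mul_mem ha hx, y, hy, by simp only [mul_assoc]⟩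
  | zero => rw [mul_zero]; exact Submodule.zero_mem _
  | add x y _ _ hx hy => rw [mul_add]; exact Submodule.add_mem _ hx hy
  | smul q x _ hx => rw [mul_smul_comm]; exact Submodule.smul_mem _ q hx

omit hH in
lemma wJ_right {w : ℤ} {a x : Cor C X} (ha : a ∈ cor0 C X) (hx : x ∈ wJ P w) :
    x * a ∈ wJ P w := by
  unfold wJ at hx
  induction hx using Submodule.span_induction with
  | mem x hx =>
    obtain ⟨x, hx, y, hy, rfl⟩ := hx
    apply Submodule.subset_span
    exact ⟨x, hx, y * a, (cor0 C X).mul_mem hy ha, by simp only [mul_assoc]⟩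
  | zero => rw [zero_mul]; exact Submodule.zero_mem _
  | add x y _ _ hx hy => rw [add_mul]; exact Submodule.add_mem _ hx hy
  | smul q x _ hx => rw [smul_mul_assoc]; exact Submodule.smul_mem _ q hx

lemma wJ_tri (hP : GoodM H e s P) {w w' : ℤ} (hlt : w < w') {x y : Cor C X} (hx : x ∈ wJ P w)
    (hy : y ∈ wJ P w') : y * x = 0 := by
  unfold wJ at hy
  induction hy using Submodule.span_induction with
  | mem y hy =>
    obtain ⟨a, ha, b, hb, rfl⟩ := hy
    unfold wJ at hx
    induction hx using Submodule.span_induction with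
    | mem x hx =>
      obtain ⟨c, hc, d, hd, rfl⟩ := hx
      have h1 : a * P w' * b * (c * P w * d) = a * (P w' * (b * c) * P w) * d := by
        simp only [mul_assoc]
      rw [h1, hP.raise _ ((cor0 C X).mul_mem hb hc) w' w hlt, mul_zero, zero_mul]
    | zero => rw [mul_zero]
    | add x y _ _ hx hy => rw [mul_add, hx, hy, add_zero]
    | smul q x _ hx => rw [mul_smul_comm, hx, smul_zero]
  | zero => rw [zero_mul]
  | add x y _ _ hx hy => rw [add_mul, hx, hy, add_zero]
  | smul q x _ hx => rw [smul_mul_assoc, hx, smul_zero]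

lemma wJ_ideals (hP : GoodM H e s P) :
    TriIdeals (A := Cor C X) (cor0 C X).toSubring (fun w : ℤ => (wJ P w).toAddSubgroup) where
  le _ _ hx := wJ_le hP hx
  left _ _ _ ha hx := wJ_left ha hx
  right _ _ _ ha hx := wJ_right ha hx
  tri _ _ _ _ hlt hx hy := wJ_tri hP hlt hx hy

lemma wJ_actH (hP : GoodM H e s P) {w : ℤ} {x : Cor C X} (hx : x ∈ wJ P w) {m : ℤ} {a : H.A X}
    (ha : a ∈ H.gr X m) (hm : m ≠ w) : actH C X H x a = 0 := by
  unfold wJ at hx
  induction hx using Submodule.span_induction with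
  | mem x hx =>
    obtain ⟨x, hx, y, hy, rfl⟩ := hx
    rw [map_mul, map_mul, Module.End.mul_apply, Module.End.mul_apply,
      hP.dec.act w m _ (actH_mem0 hy ha) hm, map_zero]
  | zero => rw [map_zero, LinearMap.zero_apply]
  | add x y _ _ hx hy => rw [map_add, LinearMap.add_apply, hx, hy, add_zero]
  | smul q x _ hx =>
    have h3 : q • x = (q • (1 : Cor C X)) * x := by rw [smul_mul_assoc, one_mul]
    rw [h3, map_mul, Module.End.mul_apply, hx, map_zero]

lemma wJ_actC (hP : GoodM H e s P) {w : ℤ} {x : Cor C X} (hx : x ∈ wJ P w) {l : ℤ} {z : C.A X}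
    (hz : z ∈ C.gr X l) (hwl : 2 * l < w ∨ (w = 2 * l ∧ H.cl z = 0)) : actC C X x z = 0 := by
  unfold wJ at hx
  induction hx using Submodule.span_induction with
  | mem x hx =>
    obtain ⟨x, hx, y, hy, rfl⟩ := hx
    have hyz : actC C X y z ∈ C.gr X l := actC_mem (H := H) hy hz
    have h1 : actC C X (P w) (actC C X y z) = 0 := by
      rcases hwl with hwl | ⟨hwl, hcl⟩
      · exact hP.b0 l w _ hyz hwl
      · subst hwl
        apply hP.d l _ hyz
        have h2 : H.cl (C.act (X := X) (Y := X) y z) = H.act (X := X) (Y := X)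
            (H.cl (X := X.prod X) y) (H.cl z) := cl_act H _ _
        rw [hcl, TheoryData.act_map_zero] at h2
        exact h2
    rw [map_mul, map_mul, Module.End.mul_apply, Module.End.mul_apply, h1, map_zero]
  | zero => rw [map_zero, LinearMap.zero_apply]
  | add x y _ _ hx hy => rw [map_add, LinearMap.add_apply, hx, hy, add_zero]
  | smul q x _ hx =>
    have h3 : q • x = (q • (1 : Cor C X)) * x := by rw [smul_mul_assoc, one_mul]
    rw [h3, map_mul, Module.End.mul_apply, hx, map_zero]

end ideals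

/-- The existence of good decompositions of direct factors. -/
theorem exists_of_goodM (hP : GoodM H e s P) {p : Cor C X} (hp : p ∈ cor0 C X)
    (hpp : p * p = p) (hpe : p * e = p) (n : ℤ) : ∃ π : ℤ → C.A (X.prod X),
      IsMotiveCK H p n π ∧ MotiveB C n π ∧ MotiveD H n π := by
  obtain ⟨q, h1, h2, h3, h4, -⟩ := exists_orthogonal (wJ_ideals hP)
    s p (fun w => p * P w) hp hpp
    (fun w _ => Submodule.subset_span ⟨p, hp, 1, (cor0 C X).one_mem, (mul_one _).symm⟩)
    (by rw [← Finset.mul_sum, hP.dec.sum, hpe])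
  have hd : Dec H p s q := ⟨fun w => wJ_le hP (h1 w), h2, h3, h4,
    fun w m a ha hm => wJ_actH hP (h1 w) ha hm⟩
  refine ⟨fun i => q (2 * X.dim - (i - 2 * n)), hd.ck n, ?_, ?_⟩
  · intro l i hi z hz
    exact wJ_actC hP (h1 _) (l := X.dim - (l - n)) hz (Or.inl (by omega))
  · intro l z hz hcl
    exact wJ_actC hP (h1 _) (l := X.dim - (l - n)) hz (Or.inr ⟨by omega, hcl⟩)

/-- **Murre's conjectures for a motive and its square imply Murre's conjectures for all its direct
factors.** -/
theorem murre_factor {e : Cor C X} (he : tpR e = e) (h1 : MurreFor H (X := X) e 0)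
    (h2 : MurreFor H (X := X.prod X) (tensR e e) 0) {p : Cor C X} (hp : p ∈ cor0 C X)
    (hpp : p * p = p) (hpe : p * e = p) (hep : e * p = p) (n : ℤ) :
    MurreFor H (X := X) p n := by
  obtain ⟨s, P, hP⟩ := goodM_of_murre he h1 h2
  refine ⟨exists_of_goodM hP hp hpp hpe n, fun π π' h h' l ν => ?_⟩
  exact le_antisymm (motFil_le' hP hep hpe h h' l ν) (motFil_le' hP hep hpe h' h l ν)

end Pool.Agent.W5h77.MQ
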