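import Pool.Agent.W5h86.MU.Fwd

/-!
# Decompositions of a direct factor of the motive of a variety, by cohomological weights
-/

set_option autoImplicit false

open CategoryTheory AlgebraicGeometry

universe u v w

namespace Pool.Agent.W5h77.MQ

open Pool.Agent.H914 Pool.Agent.H914.VarClass Pool.Agent.H914.VarClass.Obj Pool.Agent.W492.BB
  Pool.Agent.W550.Corr Pool.Agent.TH133 Pool.Agent.X308.S Pool.Agent.Y148.BB Pool.Agent.W5h86.MU

set_option linter.unusedSectionVars false

variable {k : Type u} [Field k] {𝒱 : VarClass k} {C : TheoryData.{u, v, 0} 𝒱 ℚ}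
  [hC : IsChowProj C] {K : Type w} [Field K]
  {H : WeilTheoryData.{u, v, w} C K} [hH : IsWeilProj H] {X Y Z W : 𝒱.Obj}

include hC hH

omit hH in
/-- The transpose of a self-correspondence. -/
noncomputable def tpR (a : Cor C X) : Cor C X := tp C (X := X) (Y := X) a

omit hH in
lemma tpR_mul (a b : Cor C X) : tpR (a * b) = tpR b * tpR a :=
  tp_comp C (ch_comm C) (X := X) (Y := X) (Z := X) b a

omit hH in
lemma tpR_zero : tpR (0 : Cor C X) = 0 := tp_zero C (X := X) (Y := X)

omit hH in
lemma tpR_sum {ι : Type*} (s : Finset ι) (f : ι → Cor C X) : tpR (∑ i ∈ s, f i) = ∑ i ∈ s, tpR (f i) :=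
  tp_sum C (X := X) (Y := X) s f

omit hH in
lemma tpR_tpR (a : Cor C X) : tpR (tpR a) = a := tp_tp C (X := X) (Y := X) a

omit hH in
lemma tpR_mem {a : Cor C X} (h : a ∈ cor0 C X) : tpR a ∈ cor0 C X := tp_mem C (X := X) (Y := X) h

lemma tr_tpR (a : Cor C X) (x y : H.A X) :
    H.tr X (actH C X H (tpR a) x * y) = H.tr X (x * actH C X H a y) := tr_act' H (X := X) (Y := X) a y x

/-- A decomposition of the direct factor `e` of the motive of `X` into parts `P w` of cohomological
weight `w`, `w` in the finite set `s`. -/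
structure Dec (H : WeilTheoryData.{u, v, w} C K) [IsWeilProj H] {X : 𝒱.Obj} (e : Cor C X) (s : Finset ℤ)
    (P : ℤ → Cor C X) : Prop where
  mem : ∀ w, P w ∈ cor0 C X
  out : ∀ w, w ∉ s → P w = 0
  mul : ∀ i j, P i * P j = if i = j then P i else 0
  sum : ∑ w ∈ s, P w = e
  act : ∀ (w m : ℤ) (a : H.A X), a ∈ H.gr X m → m ≠ w → actH C X H (P w) a = 0

section basic

variable {e : Cor C X} {s : Finset ℤ} {P : ℤ → Cor C X}

lemma Dec.ck (h : Dec H e s P) (n : ℤ) : IsMotiveCK H e n (fun i => P (2 * X.dim - (i - 2 * n))) :=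
  motiveCK_of n s P h.mem h.out h.mul h.sum h.act

lemma Dec.left (h : Dec H e s P) (w : ℤ) : e * P w = P w := by
  rw [← h.sum, Finset.sum_mul]
  by_cases hw : w ∈ s
  · rw [Finset.sum_eq_single_of_mem w hw (fun j _ hj => by rw [h.mul, if_neg hj]), h.mul,
      if_pos rfl]
  · rw [h.out w hw]
    simp

lemma Dec.right (h : Dec H e s P) (w : ℤ) : P w * e = P w := by
  rw [← h.sum, Finset.mul_sum]
  by_cases hw : w ∈ s
  · rw [Finset.sum_eq_single_of_mem w hw (fun j _ hj => by rw [h.mul, if_neg (Ne.symm hj)]),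
      h.mul, if_pos rfl]
  · rw [h.out w hw]
    simp

lemma Dec.em (h : Dec H e s P) : e ∈ cor0 C X := by
  rw [← h.sum]
  exact (cor0 C X).sum_mem fun w _ => h.mem w

lemma Dec.ee (h : Dec H e s P) : e * e = e := by
  conv_lhs => rw [← h.sum, Finset.sum_mul]
  rw [← h.sum]
  refine Finset.sum_congr rfl fun w _ => ?_
  rw [h.sum, h.right w]

lemma dec_of_ck {n : ℤ} {π : ℤ → Cor C X} (h : IsMotiveCK H e n π) :
    ∃ s : Finset ℤ, Dec H e s (fun w => π (2 * X.dim - w + 2 * n)) := by
  obtain ⟨s, hs, hsum⟩ := mck_sum h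
  refine ⟨s.image (fun i => 2 * X.dim - i + 2 * n), ⟨fun w => h.deg _, fun w hw => ?_,
    fun i j => ?_, ?_, fun w m a ha hm => ?_⟩⟩
  · apply hs
    intro hcon
    apply hw
    rw [Finset.mem_image]
    exact ⟨_, hcon, by ring⟩
  · split_ifs with hij
    · rw [hij]
      exact mck_idem h _
    · exact mck_orth (i := 2 * X.dim - i + 2 * n) (j := 2 * X.dim - j + 2 * n) h (by omega)
  · rw [Finset.sum_image (fun x _ y _ hxy => by simpa using hxy), ← hsum]
    refine Finset.sum_congr rfl fun i _ => ?_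
    congr 1
    ring
  · exact mck_act h _ m a (by omega) ha

/-- A class of the motive which is killed by the summands of smaller index lies in the step of
the filtration. -/
lemma motFil_of_killed' {n : ℤ} {π : ℤ → Cor C X} (h : IsMotiveCK H e n π)
    {l ν : ℤ} {x : C.A X} (hx : x ∈ C.gr X (X.dim - (l - n))) (hex : actC C X e x = x)
    (hk : ∀ i, i < 2 * l + ν → actC C X (π i) x = 0) : x ∈ motFil C (X := X) n π l ν := by
  obtain ⟨s, hs, hsum⟩ := mck_sum h
  have h1 : x = ∑ j ∈ s, actC C X (π j) x := by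
    rw [← LinearMap.sum_apply, ← map_sum, hsum, hex]
  rw [h1]
  apply Submodule.sum_mem
  intro j _
  by_cases hj : j < 2 * l + ν
  · rw [hk j hj]
    exact Submodule.zero_mem _
  · unfold motFil
    apply Submodule.mem_iSup_of_mem (⟨j, not_lt.1 hj⟩ : {i : ℤ // 2 * l + ν ≤ i})
    exact ⟨x, hx, rfl⟩

lemma actC_mul (a b : Cor C X) (x : C.A X) :
    actC C X (a * b) x = actC C X a (actC C X b x) := by
  rw [map_mul]
  rfl

/-- (B) for all decompositions. -/
lemma B_of_murre {n : ℤ} (hM : MurreFor H e n) (h : Dec H e s P) {j w : ℤ} {z : C.A X}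
    (hz : z ∈ C.gr X j) (hjw : 2 * j < w) : actC C X (P w) z = 0 := by
  obtain ⟨⟨π, hπ, hB, -⟩, hind⟩ := hM
  have e1 : 2 * (X.dim : ℤ) - ((2 * X.dim - w + 2 * n) - 2 * n) = w := by ring
  have e2 : (X.dim : ℤ) - ((X.dim - j + n) - n) = j := by ring
  have hy : actC C X (P w) z ∈ C.gr X j := actC_mem (H := H) (h.mem w) hz
  have h2 : actC C X (P w) z ∈ motFil C (X := X) n π (X.dim - j + n) 0 := by
    apply motFil_of_killed' hπ
    · rw [e2]
      exact hy
    · rw [← actC_mul (H := H), h.left]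
    · intro i hi
      exact hB (X.dim - j + n) i (by omega) _ (by
        change actC C X (P w) z ∈ C.gr X (X.dim - ((X.dim - j + n) - n))
        rw [e2]
        exact hy)
  rw [hind π _ hπ (h.ck n)] at h2
  have h3 := killed_of_motFil (h.ck n) h2 (i := 2 * X.dim - w + 2 * n) (by omega)
  rw [e1, ← actC_mul (H := H), h.mul, if_pos rfl] at h3
  exact h3

/-- (D) for all decompositions. -/
lemma D_of_murre {n : ℤ} (hM : MurreFor H e n) (h : Dec H e s P) {j : ℤ} {z : C.A X}
    (hz : z ∈ C.gr X j) (hcl : H.cl z = 0) : actC C X (P (2 * j)) z = 0 := by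
  obtain ⟨⟨π, hπ, hB, hD⟩, hind⟩ := hM
  have e1 : 2 * (X.dim : ℤ) - ((2 * X.dim - 2 * j + 2 * n) - 2 * n) = 2 * j := by ring
  have e2 : (X.dim : ℤ) - ((X.dim - j + n) - n) = j := by ring
  have hy : actC C X (P (2 * j)) z ∈ C.gr X j := actC_mem (H := H) (h.mem _) hz
  have hyc : H.cl (actC C X (P (2 * j)) z) = 0 := by
    have h2 : H.cl (C.act (X := X) (Y := X) (P (2 * j)) z) = H.act (X := X) (Y := X)
        (H.cl (X := X.prod X) (P (2 * j))) (H.cl z) := cl_act H _ _
    rw [hcl, TheoryData.act_map_zero] at h2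
    exact h2
  have hy' : actC C X (P (2 * j)) z ∈ C.gr X (X.dim - ((X.dim - j + n) - n)) := by
    rw [e2]
    exact hy
  have h2 : actC C X (P (2 * j)) z ∈ motFil C (X := X) n π (X.dim - j + n) 1 := by
    apply motFil_of_killed' hπ hy'
    · rw [← actC_mul (H := H), h.left]
    · intro i hi
      rcases lt_or_eq_of_le (show i ≤ 2 * ((X.dim : ℤ) - j + n) by omega) with h3 | h3
      · exact hB (X.dim - j + n) i h3 _ hy'
      · rw [h3]
        exact hD (X.dim - j + n) _ hy' hyc
  rw [hind π _ hπ (h.ck n)] at h2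
  have h3 := killed_of_motFil (h.ck n) h2 (i := 2 * X.dim - 2 * j + 2 * n) (by omega)
  rw [e1, ← actC_mul (H := H), h.mul, if_pos rfl] at h3
  exact h3

/-- The dual decomposition. -/
lemma Dec.dual (h : Dec H e s P) : Dec H (tpR e) (s.image (fun w => 2 * X.dim - w))
    (fun w => tpR (P (2 * X.dim - w))) where
  mem w := tpR_mem (h.mem _)
  out w hw := by
    have h1 : P (2 * X.dim - w) = 0 := by
      apply h.out
      intro hcon
      apply hw
      rw [Finset.mem_image]
      exact ⟨_, hcon, by ring⟩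
    rw [h1]
    exact tpR_zero
  mul i j := by
    rw [← tpR_mul, h.mul]
    by_cases hij : i = j
    · rw [hij, if_pos rfl, if_pos rfl]
    · rw [if_neg (by omega), if_neg hij]
      exact tpR_zero
  sum := by
    rw [Finset.sum_image (fun x _ y _ hxy => by simpa using hxy), ← h.sum, tpR_sum]
    refine Finset.sum_congr rfl fun w _ => ?_
    congr 2
    ring
  act w m b hb hm := by
    apply H.nondeg
    have h2 : H.tr X ∘ₗ LinearMap.mulLeft K (actH C X H (tpR (P (2 * X.dim - w))) b) = 0 := by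
      apply ext_gr H
      intro n a ha
      rw [LinearMap.comp_apply, LinearMap.mulLeft_apply, tr_tpR, LinearMap.zero_apply]
      by_cases hn : n = 2 * X.dim - w
      · exact tr_zero H (H.mul_mem hb (actH_mem0 (h.mem _) ha)) (by omega)
      · rw [h.act _ n a ha hn, mul_zero, map_zero]
    exact fun a => LinearMap.congr_fun h2 a

end basic

end Pool.Agent.W5h77.MQ
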