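import Pool.Agent.W5h77.MQ.Sep

/-!
# Powers as direct factors of quotients
-/

set_option autoImplicit false

open CategoryTheory AlgebraicGeometry

universe u v w

namespace Pool.Agent.W5h77.MQ

open Pool.Agent.H914 Pool.Agent.H914.VarClass Pool.Agent.H914.VarClass.Obj Pool.Agent.W492.BB
  Pool.Agent.W550.Corr Pool.Agent.TH133 Pool.Agent.X308.S Pool.Agent.Y148.BB Pool.Agent.W5h86.MU

set_option linter.unusedSectionVars false

variable {k : Type u} [Field k] {𝒱 : VarClass k} {C : TheoryData.{u, v, 0} 𝒱 ℚ}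
  [hC : IsChowProj C] {X Y Z W V M : 𝒱.Obj} {G : Type} [Group G] [Finite G]

include hC

lemma graph_hm (c : G →* Aut Z) (g h : G) :
    C.comp (C.graph (hm c h)) (C.graph (hm c g)) = C.graph (hm c (g * h)) := by
  rw [graph_comp_graph, hm_mul]

variable (S T : Subgroup G)

omit hC in
/-- Subgroups are finite. -/
noncomputable instance instFintypeSub : Fintype S := Fintype.ofFinite S

lemma quotProj_eq (m : G → (Z ⟶ Z)) :
    quotProj C S m = (Nat.card S : ℚ)⁻¹ • ∑ g : S, C.graph (m g) := by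
  rw [quotProj, finsum_eq_sum_of_fintype]

omit hC in
lemma card_ne : (Nat.card S : ℚ) ≠ 0 := by
  rw [Nat.cast_ne_zero]
  exact Nat.card_pos.ne'

lemma comp_smul (Γ : C.A (X.prod Y)) (q : ℚ) (Δ : C.A (Y.prod Z)) :
    C.comp Γ (q • Δ) = q • C.comp Γ Δ := map_smul (compL C Γ) q Δ

lemma smul_comp (Γ : C.A (X.prod Y)) (q : ℚ) (Δ : C.A (Y.prod Z)) :
    C.comp (q • Γ) Δ = q • C.comp Γ Δ := by
  simp only [← compL_apply, map_smul, LinearMap.smul_apply]

lemma graph_quot (c : G →* Aut Z) {g : G} (hg : g ∈ S) :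
    C.comp (C.graph (hm c g)) (quotProj C S (hm c)) = quotProj C S (hm c) := by
  rw [quotProj_eq, comp_smul, comp_sum]
  congr 1
  simp_rw [graph_hm]
  exact Fintype.sum_equiv (Equiv.mulRight (⟨g, hg⟩ : S)) _ _ fun x => rfl

lemma quot_graph (c : G →* Aut Z) {g : G} (hg : g ∈ S) :
    C.comp (quotProj C S (hm c)) (C.graph (hm c g)) = quotProj C S (hm c) := by
  rw [quotProj_eq, smul_comp, sum_comp]
  congr 1
  simp_rw [graph_hm]
  exact Fintype.sum_equiv (Equiv.mulLeft (⟨g, hg⟩ : S)) _ _ fun x => rfl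

variable {S T}

/-- A correspondence which absorbs the elements of `S` absorbs the projector. -/
lemma quot_absorb (c : G →* Aut Z) {Γ : C.A (Z.prod Y)}
    (h : ∀ g ∈ S, C.comp (C.graph (hm c g)) Γ = Γ) : C.comp (quotProj C S (hm c)) Γ = Γ := by
  rw [quotProj_eq, smul_comp, sum_comp, Finset.sum_congr rfl (fun g _ => h g.1 g.2),
    Finset.sum_const, Finset.card_univ, ← Nat.card_eq_fintype_card, ← Nat.cast_smul_eq_nsmul ℚ,
    smul_smul, inv_mul_cancel₀ (card_ne S), one_smul]

lemma absorb_quot (c : G →* Aut Z) {Γ : C.A (Y.prod Z)}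
    (h : ∀ g ∈ S, C.comp Γ (C.graph (hm c g)) = Γ) : C.comp Γ (quotProj C S (hm c)) = Γ := by
  rw [quotProj_eq, comp_smul, comp_sum, Finset.sum_congr rfl (fun g _ => h g.1 g.2),
    Finset.sum_const, Finset.card_univ, ← Nat.card_eq_fintype_card, ← Nat.cast_smul_eq_nsmul ℚ,
    smul_smul, inv_mul_cancel₀ (card_ne S), one_smul]

lemma quot_le (c : G →* Aut Z) (h : S ≤ T) :
    C.comp (quotProj C S (hm c)) (quotProj C T (hm c)) = quotProj C T (hm c) :=
  quot_absorb c fun g hg => graph_quot T c (h hg)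

lemma quot_le' (c : G →* Aut Z) (h : S ≤ T) :
    C.comp (quotProj C T (hm c)) (quotProj C S (hm c)) = quotProj C T (hm c) :=
  absorb_quot c fun g hg => quot_graph T c (h hg)

lemma quot_mem (c : G →* Aut Z) : quotProj C S (hm c) ∈ C.gr (Z.prod Z) Z.dim := by
  rw [quotProj_eq]
  exact Submodule.smul_mem _ _ (Submodule.sum_mem _ fun g _ => graph_mem _)

lemma quot_factor (c : G →* Aut Z) (h : S ≤ T) :
    IsFactor C (quotProj C S (hm c)) (quotProj C T (hm c)) :=
  ⟨quot_mem c, quot_le c le_rfl, quot_le c h, quot_le' c h⟩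

lemma tp_quot (c : G →* Aut Z) : tp C (quotProj C S (hm c)) = quotProj C S (hm c) := by
  rw [quotProj_eq, tp_smul, tp_sum]
  congr 1
  have h1 : ∀ g : G, tp C (C.graph (hm c g)) = C.graph (hm c g⁻¹) := by
    intro g
    apply tp_graph_iso
    · rw [hm_mul, inv_mul_cancel, hm_one]
    · rw [hm_mul, mul_inv_cancel, hm_one]
  simp_rw [h1]
  exact Fintype.sum_equiv (Equiv.inv S) _ _ fun x => rfl

/-- Isomorphisms preserve direct factors. -/
lemma factor_iso {b : G →* Aut Y} {c : G →* Aut Z} (i : EqIso b c) {q : C.A (Y.prod Y)}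
    (hq : IsFactor C (quotProj C S (hm b)) q) : ∃ (q' : C.A (Z.prod Z)) (A : C.A (Y.prod Z))
      (B : C.A (Z.prod Y)), IsoM C q q' 0 A B ∧ IsFactor C (quotProj C S (hm c)) q' := by
  have hqm : q ∈ C.gr (Y.prod Y) (Y.dim + 0) := by rw [add_zero]; exact hq.deg
  have hφ : C.graph i.φ ∈ C.gr (Y.prod Z) (Y.dim + 0) := by
    have h := wg_mem i.φ (C.one_mem Y)
    rw [zero_add, ← i.dim] at h
    rw [add_zero]
    exact h
  have hψ : C.graph i.ψ ∈ C.gr (Z.prod Y) (Z.dim + -0) := by
    have h := wg_mem i.ψ (C.one_mem Z)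
    rw [zero_add, i.dim] at h
    rw [neg_zero, add_zero]
    exact h
  set A := C.comp q (C.graph i.φ) with hA
  set B := C.comp (C.graph i.ψ) q with hB
  have hAB : C.comp A B = q := by
    rw [hA, hB, comp_assoc, ← comp_assoc C (C.graph i.φ), graph_comp_graph, i.φψ]
    have h1 : C.comp (C.graph (𝟙 Y)) q = q := dg_comp C q
    rw [h1, hq.idem]
  have hqA : C.comp q A = A := by rw [hA, ← comp_assoc, hq.idem]
  have hBq : C.comp B q = B := by rw [hB, comp_assoc, hq.idem]
  have hAc : ∀ g ∈ S, C.comp A (C.graph (hm c g)) = A := by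
    intro g hg
    have h1 : i.φ ≫ hm c g = hm b g ≫ i.φ := (i.eqv g).symm
    have h2 : C.comp q (C.graph (hm b g)) = q := by
      rw [← hq.right, comp_assoc, quot_graph S b hg]
    rw [hA, comp_assoc, graph_comp_graph, h1, ← graph_comp_graph, ← comp_assoc, h2]
  have hcB : ∀ g ∈ S, C.comp (C.graph (hm c g)) B = B := by
    intro g hg
    have h1 : hm c g ≫ i.ψ = i.ψ ≫ hm b g := i.eqv' g
    have h2 : C.comp (C.graph (hm b g)) q = q := by
      rw [← hq.left, ← comp_assoc, graph_quot S b hg]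
    rw [hB, ← comp_assoc, graph_comp_graph, h1, ← graph_comp_graph, comp_assoc, h2]
  have hAm : A ∈ C.gr (Y.prod Z) (Y.dim + 0) := by
    have h := comp_mem C hqm hφ
    rwa [zero_add] at h
  have hBm : B ∈ C.gr (Z.prod Y) (Z.dim + -0) := by
    have h := comp_mem C hψ hqm
    rwa [add_zero] at h
  refine ⟨C.comp B A, A, B, ⟨hAm, hBm, hAB, rfl, hqA, hBq⟩, ⟨?_, ?_, ?_, ?_⟩⟩
  · have h := comp_mem C hBm hAm
    have e1 : (Z.dim : ℤ) + (-0 + 0) = Z.dim := by ring
    rw [e1] at h
    exact h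
  · rw [comp_assoc, ← comp_assoc C A B A, hAB, hqA]
  · rw [← comp_assoc, quot_absorb c hcB]
  · rw [comp_assoc, absorb_quot c hAc]

variable {K : Type w} [Field K] (H : WeilTheoryData.{u, v, w} C K) [hH : IsWeilProj H]

/-- **The embedding.** If `f g = deg (z · g^* w)` vanishes outside of `S`, is nonnegative, and
`f 1 = 1`, then the direct factors of the motive of `X / S` are isomorphic to direct factors of
twists of the motive of `(X × Y) / G`. -/
theorem factor_embeds (a : G →* Aut X) (b : G →* Aut Y) {f : G → ℚ} (hf : RepOn C b f)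
    (h0 : ∀ g, 0 ≤ f g) (h1 : f 1 = 1) (hS : ∀ g, g ∉ S → f g = 0) {p : C.A (X.prod X)}
    (hp : IsFactor C (quotProj C S (hm a)) p) : ∃ (c : ℤ)
      (q : C.A ((X.prod Y).prod (X.prod Y))) (A : C.A (X.prod (X.prod Y)))
      (B : C.A ((X.prod Y).prod X)), IsoM C p q c A B ∧
        IsFactor C (quotProj C ⊤ (hm (pAct a b))) q := by
  classical
  have := Fintype.ofFinite G
  obtain ⟨c, z, w, hz, hw, hd⟩ := hf
  set E := quotProj C (⊤ : Subgroup G) (hm (pAct a b)) with hE
  have hEE : C.comp E E = E := quot_le (pAct a b) le_rfl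
  have hEm : E ∈ C.gr ((X.prod Y).prod (X.prod Y)) ((X.prod Y).dim + 0) := by
    rw [add_zero]
    exact quot_mem _
  have hpm : p ∈ C.gr (X.prod X) (X.dim + 0) := by rw [add_zero]; exact hp.deg
  have hpp : C.comp p p = p := hp.idem
  -- the sum over the group
  have hEs : E = (Nat.card (⊤ : Subgroup G) : ℚ)⁻¹ •
      ∑ g : G, C.graph (prodMap (a g).hom (b g).hom) := by
    rw [hE, quotProj_eq]
    congr 1
    exact Fintype.sum_equiv Subgroup.topEquiv.toEquiv _ _ fun x => rfl
  have hmid : C.comp (C.comp (aW X z) E) (bW X w) =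
      (Nat.card (⊤ : Subgroup G) : ℚ)⁻¹ • ∑ g : G, f g • C.graph (hm a g) := by
    rw [hEs, comp_smul, smul_comp, comp_sum, sum_comp]
    congr 1
    refine Finset.sum_congr rfl fun g _ => ?_
    exact twist (g := hm a g) (hd g)
  have hgp : ∀ g ∈ S, C.comp (C.graph (hm a g)) p = p := by
    intro g hg
    rw [← hp.left, ← comp_assoc, graph_quot S a hg]
  set κ : ℚ := ∑ g : G, f g with hκ
  have hκ0 : κ ≠ 0 := by
    apply ne_of_gt
    rw [hκ]
    exact Finset.sum_pos' (fun g _ => h0 g) ⟨1, Finset.mem_univ 1, by rw [h1]; exact one_pos⟩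
  have hpmp : C.comp p (C.comp (C.comp (C.comp (aW X z) E) (bW X w)) p) =
      ((Nat.card (⊤ : Subgroup G) : ℚ)⁻¹ * κ) • p := by
    rw [hmid, smul_comp, comp_smul, sum_comp, comp_sum]
    have h2 : ∀ g ∈ Finset.univ, C.comp p (C.comp (f g • C.graph (hm a g)) p) = f g • p := by
      intro g _
      rw [smul_comp, comp_smul]
      by_cases hg : g ∈ S
      · rw [hgp g hg, hpp]
      · rw [hS g hg, zero_smul, zero_smul]
    rw [Finset.sum_congr rfl h2, ← Finset.sum_smul, smul_smul]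
  set r : ℚ := (Nat.card (⊤ : Subgroup G) : ℚ)⁻¹ * κ with hr
  have hr0 : r ≠ 0 := mul_ne_zero (inv_ne_zero (card_ne _)) hκ0
  set A := C.comp p (C.comp (aW X z) E) with hA
  set B := r⁻¹ • C.comp E (C.comp (bW X w) p) with hB
  have hAB : C.comp A B = p := by
    have h2 : C.comp (C.comp p (C.comp (aW X z) E)) (C.comp E (C.comp (bW X w) p)) =
        C.comp p (C.comp (C.comp (C.comp (aW X z) E) (bW X w)) p) := by
      rw [comp_assoc C p, ← comp_assoc C (C.comp (aW X z) E) E, comp_assoc C (aW X z) E E, hEE,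
        comp_assoc C (C.comp (aW X z) E) (bW X w) p]
    rw [hA, hB, comp_smul, h2, hpmp, smul_smul, inv_mul_cancel₀ hr0, one_smul]
  have hpA : C.comp p A = A := by rw [hA, ← comp_assoc, hpp]
  have hBp : C.comp B p = B := by
    rw [hB, smul_comp, comp_assoc, comp_assoc, hpp]
  have hAE : C.comp A E = A := by rw [hA, comp_assoc, comp_assoc, hEE]
  have hEB : C.comp E B = B := by rw [hB, comp_smul, ← comp_assoc, hEE]
  have haw : aW X z ∈ C.gr (X.prod (X.prod Y)) (X.dim + c) := by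
    have h := aW_mem (X := X) hz
    rwa [add_comm] at h
  have hbw : bW X w ∈ C.gr ((X.prod Y).prod X) ((X.prod Y).dim + -c) := by
    have h := bW_mem (X := X) hw
    have e1 : (Y.dim : ℤ) - c + X.dim = (X.prod Y).dim + -c := by
      rw [dim_prod]; push_cast; ring
    rwa [e1] at h
  have hAm : A ∈ C.gr (X.prod (X.prod Y)) (X.dim + c) := by
    have h := comp_mem C hpm (comp_mem C haw hEm)
    rwa [add_zero, zero_add] at h
  have hBm : B ∈ C.gr ((X.prod Y).prod X) ((X.prod Y).dim + -c) := by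
    have h := comp_mem C hEm (comp_mem C hbw hpm)
    rw [add_zero, zero_add] at h
    exact Submodule.smul_mem _ _ h
  refine ⟨c, C.comp B A, A, B, ⟨hAm, hBm, hAB, rfl, hpA, hBp⟩, ⟨?_, ?_, ?_, ?_⟩⟩
  · have h := comp_mem C hBm hAm
    have e1 : ((X.prod Y).dim : ℤ) + (-c + c) = (X.prod Y).dim := by ring
    rw [e1] at h
    exact h
  · rw [comp_assoc, ← comp_assoc C A B A, hAB, hpA]
  · rw [← comp_assoc, hEB]
  · rw [comp_assoc, hAE]

end Pool.Agent.W5h77.MQ
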