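import Pool.Agent.W5h77.MQ.Trans

/-!
# Graphs of automorphisms and external multiplication with a cycle
-/

set_option autoImplicit false

open CategoryTheory AlgebraicGeometry

universe u v w

namespace Pool.Agent.W5h77.MQ

open Pool.Agent.H914 Pool.Agent.H914.VarClass Pool.Agent.H914.VarClass.Obj Pool.Agent.W492.BB
  Pool.Agent.W550.Corr Pool.Agent.TH133 Pool.Agent.X308.S Pool.Agent.Y148.BB Pool.Agent.W5h86.MU

set_option linter.unusedSectionVars false

variable {k : Type u} [Field k] {𝒱 : VarClass k} {C : TheoryData.{u, v, 0} 𝒱 ℚ}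
  [hC : IsChowProj C] {X Y Z W V M : 𝒱.Obj}

include hC

/-- Composition with a class on a graph. -/
lemma comp_wg (Γ : C.A (V.prod M)) (a : M ⟶ X) (w : C.A M) :
    C.comp Γ (wg C a w) = C.push (prodMap (𝟙 V) a) (Γ * C.pull (snd V M) w) := by
  rw [comp_eq_extR, TheoryData.extR, wg, C.base_snd, ← C.proj_right, ← C.push_comp, ← C.pull_comp]
  have e1 : prodMap (𝟙 V) (Obj.lift (𝟙 M) a) ≫ u12 V M X = 𝟙 _ := by
    apply prod_ext <;> simp [u12]
  have e2 : prodMap (𝟙 V) (Obj.lift (𝟙 M) a) ≫ u13 V M X = prodMap (𝟙 V) a := by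
    apply prod_ext <;> simp [u13]
  rw [e1, e2, C.pull_id, ch_comm C]

lemma graph_comp_graph (f : X ⟶ Y) (g : Y ⟶ Z) :
    C.comp (C.graph f) (C.graph g) = C.graph (f ≫ g) := by
  rw [comp_graph, TheoryData.graph, TheoryData.graph, ← C.push_comp]
  congr 2
  apply prod_ext <;> simp

lemma pull_graph (f : V ⟶ X) (g : X ⟶ Y) :
    C.pull (prodMap f (𝟙 Y)) (C.graph g) = C.graph (f ≫ g) := by
  have h := wg_comp f (1 : C.A V) (C.graph g)
  rw [map_one, mul_one] at h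
  rw [← h, ← graph_comp_graph]
  rfl

lemma tp_graph_iso (f : X ⟶ Y) (g : Y ⟶ X) (h1 : f ≫ g = 𝟙 X) (h2 : g ≫ f = 𝟙 Y) :
    tp C (C.graph f) = C.graph g := by
  have h3 : C.comp (tp C (C.graph f)) (C.graph f) = dg C Y := by
    rw [comp_graph, tp_eq_push, TheoryData.graph, ← C.push_comp, ← C.push_comp, dg,
      TheoryData.graph]
    have e1 : Obj.lift (𝟙 X) f ≫ sw X Y ≫ prodMap (𝟙 Y) f = f ≫ Obj.lift (𝟙 Y) (𝟙 Y) := by
      apply prod_ext <;> simp [sw, comp_lift]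
    have e2 : C.push f (1 : C.A X) = 1 := by
      have := push_pull_iso C f g h1 h2 1
      rwa [map_one] at this
    rw [e1, C.push_comp, e2]
  have h4 : C.comp (tp C (C.graph f)) (C.comp (C.graph f) (C.graph g)) =
      C.comp (dg C Y) (C.graph g) := by
    rw [← comp_assoc, h3]
  rw [graph_comp_graph, h1, dg_comp] at h4
  have h5 := comp_dg C (tp C (C.graph f))
  rw [dg] at h5
  rw [← h5, h4]

lemma pull_graph_right (f : X ⟶ Y) (g : Z ⟶ Y) (g' : Y ⟶ Z) (h1 : g ≫ g' = 𝟙 Z)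
    (h2 : g' ≫ g = 𝟙 Y) : C.pull (prodMap (𝟙 X) g) (C.graph f) = C.graph (f ≫ g') := by
  rw [pull_eq_comp, tp_graph_iso g g' h1 h2, graph_comp_graph]

lemma graph_mem (f : X ⟶ X) : C.graph f ∈ C.gr (X.prod X) X.dim := by
  have h := wg_mem f (C.one_mem X)
  rw [zero_add] at h
  exact h

/-- The correspondence `z ↦ z × W` from `X` to `X × Y`. -/
noncomputable def aW (X : 𝒱.Obj) {Y : 𝒱.Obj} (W : C.A Y) : C.A (X.prod (X.prod Y)) :=
  tp C (wg C (fst X Y) (C.pull (snd X Y) W))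

/-- The correspondence `z ↦ pr_*(z · (X × W))` from `X × Y` to `X`. -/
noncomputable def bW (X : 𝒱.Obj) {Y : 𝒱.Obj} (W : C.A Y) : C.A ((X.prod Y).prod X) :=
  wg C (fst X Y) (C.pull (snd X Y) W)

lemma bW_mem {W : C.A Y} {c : ℤ} (h : W ∈ C.gr Y c) :
    bW X W ∈ C.gr ((X.prod Y).prod X) (c + X.dim) := wg_mem _ (C.pull_mem _ h)

lemma aW_mem {W : C.A Y} {c : ℤ} (h : W ∈ C.gr Y c) :
    aW X W ∈ C.gr (X.prod (X.prod Y)) (c + X.dim) := tp_mem C (bW_mem h)

lemma aW_eq (W : C.A Y) : aW X W = C.push (Obj.lift (fst X Y) (𝟙 (X.prod Y))) (C.pull (snd X Y) W) := by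
  rw [aW, tp_eq_push, wg, ← C.push_comp]
  congr 2
  apply prod_ext <;> simp [sw, comp_lift]

/-- **The basic computation.** -/
lemma twist {W W' : C.A Y} {g : X ⟶ X} {g' : Y ⟶ Y} {q : ℚ}
    (hq : HasDegree C (W * C.pull g' W') q) :
    C.comp (C.comp (aW X W) (C.graph (prodMap g g'))) (bW X W') = q • C.graph g := by
  have h1 : C.comp (aW X W) (C.graph (prodMap g g')) =
      C.push (Obj.lift (fst X Y) (prodMap g g')) (C.pull (snd X Y) W) := by
    rw [comp_graph, aW_eq, ← C.push_comp]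
    congr 2
    apply prod_ext <;> simp
  have e1 : Obj.lift (fst X Y) (prodMap g g') ≫ snd X (X.prod Y) ≫ snd X Y = snd X Y ≫ g' := by
    rw [← Category.assoc, lift_snd, prodMap_snd]
  have e2 : Obj.lift (fst X Y) (prodMap g g') ≫ prodMap (𝟙 X) (fst X Y) =
      fst X Y ≫ Obj.lift (𝟙 X) g := by
    apply prod_ext
    · simp
    · simp
  rw [h1, bW, comp_wg, ← C.proj_right, ← C.pull_comp, ← C.pull_comp, Category.assoc, e1, ← C.push_comp, e2,
    C.push_comp, C.pull_comp, ← map_mul, (hq X).2, map_smul]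
  rfl

end Pool.Agent.W5h77.MQ
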