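import Pool.Agent.W5h77.MQ.Fact

/-!
# Murre's conjectures and diagonal quotients
-/

set_option autoImplicit false

open CategoryTheory AlgebraicGeometry

universe u v w

namespace Pool.Agent.W5h77.MQ

open Pool.Agent.H914 Pool.Agent.H914.VarClass Pool.Agent.H914.VarClass.Obj Pool.Agent.W492.BB
  Pool.Agent.W550.Corr Pool.Agent.TH133 Pool.Agent.X308.S Pool.Agent.Y148.BB Pool.Agent.W5h86.MU

set_option linter.unusedSectionVars false

variable {k : Type u} [Field k] {𝒱 : VarClass k} {C : TheoryData.{u, v, 0} 𝒱 ℚ}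
  [hC : IsChowProj C] {X Y Z W V M : 𝒱.Obj} {G : Type} [Group G] [Finite G]

include hC

/-- The graph of a product of maps. -/
lemma graph_prodMap (f : X ⟶ X) (g : Y ⟶ Y) :
    C.graph (prodMap f g) = tens C (C.graph f) (C.graph g) := by
  have e0 : C.ext (X := X) (Y := Y) 1 1 = 1 := by rw [TheoryData.ext, map_one, map_one, one_mul]
  have e1 : prodMap (Obj.lift (𝟙 X) f) (Obj.lift (𝟙 Y) g) ≫ mid X X Y Y =
      Obj.lift (𝟙 (X.prod Y)) (prodMap f g) := by
    apply prod_ext
    · apply prod_ext <;> simp [mid, prodMap, comp_lift]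
    · apply prod_ext <;> simp [mid, prodMap, comp_lift]
  rw [tens_eq C, pull_iso C (mid X Y X Y) (mid X X Y Y) (mid_mid _ _ _ _) (mid_mid _ _ _ _),
    TheoryData.graph, TheoryData.graph, TheoryData.graph, ← push_ext C, ← C.push_comp, e0, e1]

lemma tens_factor {S : Subgroup G} (b : G →* Aut Y) :
    IsFactor C (quotProj C S (hm (pAct b b)))
      (square C (quotProj C ⊤ (hm b))) := by
  have hm1 : quotProj C (⊤ : Subgroup G) (hm b) ∈ C.gr (Y.prod Y) Y.dim := quot_mem b
  have hg : ∀ g, C.graph (hm (pAct b b) g) = tens C (C.graph (hm b g)) (C.graph (hm b g)) :=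
    fun g => graph_prodMap _ _
  change IsFactor C _ (tens C (quotProj C ⊤ (hm b)) (quotProj C ⊤ (hm b)))
  refine ⟨?_, ?_, ?_, ?_⟩
  · have h := tens_mem C hm1 hm1
    have e1 : (Y.dim : ℤ) + Y.dim = (Y.prod Y).dim := by rw [dim_prod]; push_cast; ring
    rw [e1] at h
    exact h
  · rw [tens_comp'', quot_le b le_rfl]
  · apply quot_absorb
    intro g _
    rw [hg, tens_comp'', graph_quot ⊤ b (Subgroup.mem_top g)]
  · apply absorb_quot
    intro g _
    rw [hg, tens_comp'', quot_graph ⊤ b (Subgroup.mem_top g)]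

variable {K : Type w} [Field K] {H : WeilTheoryData.{u, v, w} C K} [hH : IsWeilProj H]

include hH

/-- **From the quotients to the direct factors of the powers.** -/
theorem factors_of_quotients (a : G →* Aut X) (S : Subgroup G) (hS : ∀ g, g ∉ S → Moves C (hm a) g)
    (N : ℕ) (hM : MurreQuotients H (hm a) N) : MurreFactors H (hm a) S := by
  classical
  intro n p l hp
  obtain ⟨j, hj, hrep⟩ := exists_sep H a N
  rw [← hm_powAct] at hp
  obtain ⟨c, q, A, B, hAB, hq⟩ := factor_embeds (powAct a n) (powAct a j) hrep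
    (fun g => by split_ifs <;> norm_num) (if_neg (not_moves_one H a))
    (fun g hg => if_pos (hS g hg)) hp
  obtain ⟨q', A', B', hAB', hq'⟩ := factor_iso (powIso a j n) hq
  rw [hm_powAct] at hq'
  have hbig : N ≤ j + n + 1 := by omega
  obtain ⟨h1, h2⟩ := hM (j + n + 1) hbig
  have he : tpR (C := C) (X := power X (j + n + 1)) (quotProj C ⊤ (diag (hm a) (j + n + 1))) =
      quotProj C ⊤ (diag (hm a) (j + n + 1)) := by
    rw [← hm_powAct]
    exact tp_quot _
  have h3 : ∀ l', MurreFor H q' l' := fun l' =>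
    murre_factor he h1 h2 hq'.deg hq'.idem hq'.left hq'.right l'
  have h4 : ∀ l', MurreFor H q l' := fun l' => murre_of_iso hAB' rfl (h3 _)
  exact murre_of_iso hAB rfl (h4 _)

/-- The converse. -/
theorem quotients_of_factors (a : G →* Aut X) (S : Subgroup G) (N : ℕ)
    (hM : MurreFactors H (hm a) S) : MurreQuotients H (hm a) N := by
  intro n _
  have hf : ∀ m : ℕ, IsFactor C (quotProj C S (diag (hm a) m)) (quotProj C ⊤ (diag (hm a) m)) := by
    intro m
    rw [← hm_powAct]
    exact quot_factor _ le_top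
  refine ⟨hM n _ 0 (hf n), ?_⟩
  rw [← hm_powAct]
  obtain ⟨q', A, B, hAB, hq'⟩ := factor_iso (powIso a n n)
    (tens_factor (C := C) (S := S) (powAct a n))
  rw [hm_powAct] at hq'
  exact murre_of_iso hAB rfl (hM (n + n + 1) q' _ hq')

theorem quotients_iff (a : G →* Aut X) (S : Subgroup G) (hS : ∀ g, g ∉ S → Moves C (hm a) g)
    (N : ℕ) : MurreQuotients H (hm a) N ↔ MurreFactors H (hm a) S :=
  ⟨factors_of_quotients a S hS N, quotients_of_factors a S N⟩

omit hH in
lemma quot_bot (c : G →* Aut Z) : quotProj C (⊥ : Subgroup G) (hm c) = dg C Z := by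
  have h1 : C.comp (quotProj C (⊥ : Subgroup G) (hm c)) (dg C Z) = dg C Z := by
    apply quot_absorb
    intro g hg
    rw [Subgroup.mem_bot.1 hg, hm_one]
    exact comp_dg C _
  rw [comp_dg] at h1
  exact h1

/-- For the trivial subgroup all motives of powers occur. -/
theorem factors_bot (a : G →* Aut X) : MurreFactors H (hm a) ⊥ ↔ MurrePowers H X := by
  constructor
  · intro h n p l hp hpp
    apply h n p l
    rw [← hm_powAct, quot_bot]
    exact ⟨hp, hpp, dg_comp C p, comp_dg C p⟩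
  · intro h n p l hp
    exact h n p l hp.deg hp.idem

/-- If the elements different from one are visible, then the elements which are not central
move some correspondence, namely a graph. -/
theorem moves_of_visible (a : G →* Aut X) (hv : ∀ g, g ≠ 1 → Visible C (hm a) g) (g : G)
    (hg : g ∉ Subgroup.center G) : Moves C (hm a) g := by
  rw [Subgroup.mem_center_iff] at hg
  push Not at hg
  obtain ⟨h, hgh⟩ := hg
  -- `σ = g⁻¹ h g h⁻¹`
  set σ : G := g⁻¹ * h * g * h⁻¹ with hσ
  have hσ1 : σ ≠ 1 := by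
    intro h1
    apply hgh
    rw [hσ, mul_inv_eq_one, mul_assoc, inv_mul_eq_iff_eq_mul] at h1
    exact h1
  obtain ⟨z, hz, q, r, hqr, hq, hr⟩ := hv σ hσ1
  have hinv : ∀ x : G, hm a x ≫ hm a x⁻¹ = 𝟙 X ∧ hm a x⁻¹ ≫ hm a x = 𝟙 X := fun x =>
    ⟨by rw [hm_mul, inv_mul_cancel, hm_one], by rw [hm_mul, mul_inv_cancel, hm_one]⟩
  have hD : ∀ x : G, prodMap (hm a x) (𝟙 X) ≫ prodMap (hm a x⁻¹) (𝟙 X) = 𝟙 _ ∧
      prodMap (hm a x⁻¹) (𝟙 X) ≫ prodMap (hm a x) (𝟙 X) = 𝟙 _ := fun x =>
    ⟨by rw [pm_comp, (hinv x).1, Category.comp_id, pm_id],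
      by rw [pm_comp, (hinv x).2, Category.comp_id, pm_id]⟩
  -- the cycle `z' = (h × 1)^* z`
  have hz' : C.pull (prodMap (hm a h) (𝟙 X)) z ∈ C.gr (X.prod X) X.dim := C.pull_mem _ hz
  have hgr : C.graph (hm a h) ∈ C.gr (X.prod X) X.dim := graph_mem _
  have key : ∀ x : G, C.pull (prodMap (hm a h) (𝟙 X)) (z * C.graph (hm a x)) =
      C.pull (prodMap (hm a h) (𝟙 X)) z * C.graph (hm a (x * h)) := by
    intro x
    rw [map_mul, pull_graph, hm_mul]
  have hpg : C.pull (prodMap (hm a g) (hm a g)) (C.graph (hm a h)) =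
      C.graph (hm a (σ * h)) := by
    have e1 : prodMap (hm a g) (hm a g) = prodMap (hm a g) (𝟙 X) ≫ prodMap (𝟙 X) (hm a g) := by
      rw [pm_comp, Category.comp_id, Category.id_comp]
    rw [e1, C.pull_comp, pull_graph_right (hm a h) (hm a g) (hm a g⁻¹) (hinv g).1 (hinv g).2,
      pull_graph, hm_mul, hm_mul]
    congr 2
    rw [hσ]
    group
  refine ⟨0, C.pull (prodMap (hm a h) (𝟙 X)) z, C.graph (hm a h), hz', hgr, q, r, hqr, ?_, ?_⟩
  · have h1 := hd_pull _ _ (hD h).1 (hD h).2 hq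
    have h2 := key σ
    have h3 : C.pull (prodMap (hm a h) (𝟙 X)) z *
        C.pull (prodMap (hm a g) (hm a g)) (C.graph (hm a h)) =
        C.pull (prodMap (hm a h) (𝟙 X)) (z * C.graph (hm a σ)) := by
      rw [hpg, h2]
    have h4 : HasDegree C (C.pull (prodMap (hm a h) (𝟙 X)) (z * C.graph (hm a σ))) q := h1
    rw [← h3] at h4
    exact h4
  · have h1 := hd_pull _ _ (hD h).1 (hD h).2 hr
    have h2 := key 1
    rw [one_mul, hm_one] at h2
    have h3 : HasDegree C (C.pull (prodMap (hm a h) (𝟙 X)) (z * C.graph (𝟙 X))) r := h1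
    rw [h2] at h3
    exact h3

/-- The statements. -/
theorem final {m : G → (X ⟶ X)} (hm' : IsAction m) (N : ℕ) :
    (∀ S : Subgroup G, (∀ g ∉ S, Moves C m g) → (MurreQuotients H m N ↔ MurreFactors H m S)) ∧
    ((∀ g ≠ 1, Visible C m g) →
      (MurreQuotients H m N ↔ MurreFactors H m (Subgroup.center G))) ∧
    ((∀ g ≠ 1, Visible C m g) → Subgroup.center G = ⊥ →
      (MurreQuotients H m N ↔ MurrePowers H X)) := by
  obtain ⟨a, rfl⟩ := exists_act hm'
  refine ⟨fun S hS => quotients_iff a S hS N, fun hv => quotients_iff a _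
    (fun g hg => moves_of_visible (H := H) a hv g hg) N, fun hv hc => ?_⟩
  rw [← factors_bot a, ← hc]
  exact quotients_iff a _ (fun g hg => moves_of_visible (H := H) a hv g hg) N

end Pool.Agent.W5h77.MQ
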