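import Pool.Agent.W5h77.MQ.Dec

/-!
# Products of decompositions, and the weights of correspondences
-/

set_option autoImplicit false

open CategoryTheory AlgebraicGeometry

universe u v w

namespace Pool.Agent.W5h77.MQ

open Pool.Agent.H914 Pool.Agent.H914.VarClass Pool.Agent.H914.VarClass.Obj Pool.Agent.W492.BB
  Pool.Agent.W550.Corr Pool.Agent.TH133 Pool.Agent.X308.S Pool.Agent.Y148.BB Pool.Agent.W5h86.MU

set_option linter.unusedSectionVars false

variable {k : Type u} [Field k] {𝒱 : VarClass k} {C : TheoryData.{u, v, 0} 𝒱 ℚ}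
  [hC : IsChowProj C] {K : Type w} [Field K]
  {H : WeilTheoryData.{u, v, w} C K} [hH : IsWeilProj H] {X Y Z W : 𝒱.Obj}

include hC hH

omit hH in
/-- The external product of self-correspondences. -/
noncomputable def tensR (a : Cor C X) (b : Cor C Z) : Cor C (X.prod Z) :=
  tens C (X := X) (Y := X) (Z := Z) (W := Z) a b

omit hH in
lemma tensR_mul (a a' : Cor C X) (b b' : Cor C Z) :
    tensR a b * tensR a' b' = tensR (a * a') (b * b') := tens_comp' (X := X) (Z := Z) a' a b' b

omit hH in
lemma tensR_zero_left (b : Cor C Z) : tensR (0 : Cor C X) b = 0 :=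
  tens_zero_left (X := X) (Y := X) (Z := Z) (W := Z) b

omit hH in
lemma tensR_zero_right (a : Cor C X) : tensR a (0 : Cor C Z) = 0 :=
  tens_zero_right (X := X) (Y := X) (Z := Z) (W := Z) a

omit hH in
/-- The external product as a bilinear map. -/
noncomputable def tensRL : Cor C X →ₗ[ℚ] Cor C Z →ₗ[ℚ] Cor C (X.prod Z) :=
  tensL (C := C) (X := X) (Y := X) (Z := Z) (W := Z)

omit hH in
lemma tensRL_apply (a : Cor C X) (b : Cor C Z) : tensRL a b = tensR a b := rfl

omit hH in
lemma tensR_mem {a : Cor C X} {b : Cor C Z} (ha : a ∈ cor0 C X) (hb : b ∈ cor0 C Z) :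
    tensR a b ∈ cor0 C (X.prod Z) := by
  have h := tens_mem C (X := X) (Y := X) (Z := Z) (W := Z) ha hb
  have e1 : ((X.prod Z).dim : ℤ) = X.dim + Z.dim := by rw [dim_prod]; push_cast; ring
  change _ ∈ C.gr _ ((X.prod Z).dim : ℤ)
  rw [e1]
  exact h

lemma actH_tensR (a : Cor C X) (b : Cor C Z) (x : H.A X) (y : H.A Z) :
    actH C (X.prod Z) H (tensR a b) (H.ext x y) = H.ext (actH C X H a x) (actH C Z H b y) :=
  actH_tens_ext H (X := X) (Y := X) (Z := Z) (W := Z) a b x y

section prod

variable {e : Cor C X} {s : Finset ℤ} {P : ℤ → Cor C X} {f : Cor C Z} {t : Finset ℤ}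
  {Q : ℤ → Cor C Z}

omit hC hH in
open scoped Classical in
/-- The set of sums. -/
noncomputable def addS (s t : Finset ℤ) : Finset ℤ := (s ×ˢ t).image (fun p => p.1 + p.2)

omit hH in
/-- The product of two decompositions. -/
noncomputable def convR (s : Finset ℤ) (P : ℤ → Cor C X) (Q : ℤ → Cor C Z) (w : ℤ) :
    Cor C (X.prod Z) := ∑ i ∈ s, tensR (P i) (Q (w - i))

lemma conv_mul (h : Dec H e s P) (h' : Dec H f t Q) (w w' : ℤ) :
    convR s P Q w * convR s P Q w' = if w = w' then convR s P Q w else 0 := by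
  unfold convR
  have h1 : (∑ i ∈ s, tensR (P i) (Q (w - i))) * (∑ i ∈ s, tensR (P i) (Q (w' - i))) =
      ∑ i ∈ s, tensR (P i) (Q (w - i) * Q (w' - i)) := by
    rw [Finset.sum_mul]
    refine Finset.sum_congr rfl fun i hi => ?_
    rw [Finset.mul_sum, Finset.sum_eq_single_of_mem i hi]
    · rw [tensR_mul, h.mul, if_pos rfl]
    · intro j _ hj
      rw [tensR_mul, h.mul, if_neg (Ne.symm hj), tensR_zero_left]
  rw [h1]
  split_ifs with hw
  · subst hw
    refine Finset.sum_congr rfl fun i _ => ?_
    rw [h'.mul, if_pos rfl]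
  · refine Finset.sum_eq_zero fun i _ => ?_
    rw [h'.mul, if_neg (by omega), tensR_zero_right]

lemma Dec.prod (h : Dec H e s P) (h' : Dec H f t Q) :
    Dec H (tensR e f) (addS s t) (convR s P Q) where
  mem w := (cor0 C (X.prod Z)).sum_mem fun i _ => tensR_mem (h.mem i) (h'.mem _)
  out w hw := by
    refine Finset.sum_eq_zero fun i hi => ?_
    rw [h'.out, tensR_zero_right]
    intro hcon
    apply hw
    rw [addS, Finset.mem_image]
    exact ⟨(i, w - i), Finset.mem_product.2 ⟨hi, hcon⟩, by simp⟩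
  mul i j := conv_mul h h' i j
  sum := by
    classical
    have h1 : ∀ i ∈ s, ∑ w ∈ addS s t, Q (w - i) = f := by
      intro i hi
      rw [← h'.sum]
      symm
      have hsub : t.image (fun j => i + j) ⊆ addS s t := by
        intro w hw
        rw [Finset.mem_image] at hw
        obtain ⟨j, hj, rfl⟩ := hw
        rw [addS, Finset.mem_image]
        exact ⟨(i, j), Finset.mem_product.2 ⟨hi, hj⟩, rfl⟩
      rw [← Finset.sum_subset hsub]
      · rw [Finset.sum_image (fun x _ y _ hxy => by simpa using hxy)]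
        refine Finset.sum_congr rfl fun j _ => ?_
        rw [add_sub_cancel_left]
      · intro w _ hw
        apply h'.out
        intro hcon
        apply hw
        rw [Finset.mem_image]
        exact ⟨_, hcon, by ring⟩
    unfold convR
    rw [Finset.sum_comm]
    have h2 : ∀ i ∈ s, ∑ w ∈ addS s t, tensR (P i) (Q (w - i)) = tensRL (P i) f := by
      intro i hi
      rw [← h1 i hi, map_sum]
      rfl
    rw [Finset.sum_congr rfl h2, ← tensRL_apply, ← h.sum, map_sum, LinearMap.sum_apply]
  act w m c hc hm := by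
    have h1 := H.kunneth X Z m hc
    clear hc
    induction h1 using Submodule.span_induction with
    | mem x hx =>
      obtain ⟨l, a, b, ha, hb, rfl⟩ := hx
      have e0 : H.pull (fst X Z) a * H.pull (snd X Z) b = H.ext a b := rfl
      rw [e0, convR, map_sum, LinearMap.sum_apply]
      refine Finset.sum_eq_zero fun i _ => ?_
      rw [actH_tensR]
      by_cases hi : l = i
      · rw [h'.act (w - i) (m - l) b hb (by omega), TheoryData.ext_zero_right]
      · rw [h.act i l a ha hi, TheoryData.ext_zero_left]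
    | zero => rw [map_zero]
    | add x y _ _ hx hy => rw [map_add, hx, hy, add_zero]
    | smul r x _ hx => rw [map_smul, hx, smul_zero]

/-- The components of the product decomposition. -/
lemma comp_conv (h : Dec H e s P) (h' : Dec H f t Q) (i j : ℤ) :
    tensR (P i) (Q j) * convR s P Q (i + j) = tensR (P i) (Q j) := by
  by_cases hi : i ∈ s
  · unfold convR
    rw [Finset.mul_sum, Finset.sum_eq_single_of_mem i hi]
    · rw [tensR_mul, h.mul, if_pos rfl, add_sub_cancel_left, h'.mul, if_pos rfl]
    · intro l _ hl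
      rw [tensR_mul, h.mul, if_neg (Ne.symm hl), tensR_zero_left]
  · rw [h.out i hi, tensR_zero_left, zero_mul]

end prod

/-- A decomposition of the motive `(X, e)` such that no self-correspondence raises the weights,
homologically trivial ones strictly lower them, and which satisfies (B) and (D). -/
structure GoodM (H : WeilTheoryData.{u, v, w} C K) [IsWeilProj H] {X : 𝒱.Obj} (e : Cor C X)
    (s : Finset ℤ) (P : ℤ → Cor C X) : Prop where
  dec : Dec H e s P
  raise : ∀ (γ : Cor C X), γ ∈ cor0 C X → ∀ a b : ℤ, b < a → P a * γ * P b = 0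
  diag : ∀ (γ : Cor C X), γ ∈ cor0 C X → H.cl (X := X.prod X) γ = 0 → ∀ a : ℤ, P a * γ * P a = 0
  b0 : ∀ (j w : ℤ) (x : C.A X), x ∈ C.gr X j → 2 * j < w → actC C X (P w) x = 0
  d : ∀ (j : ℤ) (x : C.A X), x ∈ C.gr X j → H.cl x = 0 → actC C X (P (2 * j)) x = 0

omit hH in
lemma actC_tensR (a b : Cor C X) (γ : Cor C X) :
    actC C (X.prod X) (tensR (tpR a) b) γ = b * γ * a := by
  have h1 := act_tens C (ch_comm C) (X := X) (X' := X) (Z := X) (Z' := X) (tpR a) b γ
  have h2 : tp C (X := X) (Y := X) (tpR a) = a := tpR_tpR a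
  rw [h2] at h1
  have h3 : b * γ * a = b * (γ * a) := mul_assoc b γ a
  exact h1.trans h3.symm

lemma zero_of_comp {a b : Cor C Z} (h : a * b = a) {z : C.A Z} (h0 : actC C Z b z = 0) :
    actC C Z a z = 0 := by
  rw [← h, actC_mul (H := H), h0, map_zero]

/-- **Murre's conjectures for `(X, e)` and for its square imply the weight properties.** -/
theorem goodM_of_murre {e : Cor C X} (he : tpR e = e) (h1 : MurreFor H (X := X) e 0)
    (h2 : MurreFor H (X := X.prod X) (tensR e e) 0) : ∃ s P, GoodM H e s P := by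
  obtain ⟨⟨π, hπ, -, -⟩, -⟩ := id h1
  obtain ⟨s, hs⟩ := dec_of_ck hπ
  set P : ℤ → Cor C X := fun w => π (2 * X.dim - w + 2 * 0) with hP
  have hd := hs.dual
  rw [he] at hd
  have hp := hd.prod hs
  refine ⟨s, P, ⟨hs, fun γ hγ a b hab => ?_, fun γ hγ hcl a => ?_,
    fun j w x hx hw => B_of_murre h1 hs hx hw, fun j x hx hcl => D_of_murre h1 hs hx hcl⟩⟩
  · have h3 := B_of_murre h2 hp (j := X.dim) (w := (2 * X.dim - b) + a) hγ (by omega)
    have h4 := comp_conv hd hs (2 * X.dim - b) a
    have h5 : P (2 * X.dim - (2 * X.dim - b)) = P b := by congr 1; ring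
    beta_reduce at h4
    rw [h5] at h4
    exact (actC_tensR (C := C) (P b) (P a) γ).symm.trans (zero_of_comp (H := H) h4 h3)
  · have h3 := D_of_murre h2 hp (j := X.dim) hγ hcl
    have h4 := comp_conv hd hs (2 * X.dim - a) a
    have h5 : P (2 * X.dim - (2 * X.dim - a)) = P a := by congr 1; ring
    have h6 : 2 * (X.dim : ℤ) - a + a = 2 * X.dim := by ring
    beta_reduce at h4
    rw [h5, h6] at h4
    exact (actC_tensR (C := C) (P a) (P a) γ).symm.trans (zero_of_comp (H := H) h4 h3)

end Pool.Agent.W5h77.MQ
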