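import Pool.Agent.W5h77.MQ.Act

/-!
# Functions on the group given by intersection numbers
-/

set_option autoImplicit false

open CategoryTheory AlgebraicGeometry

universe u v w

namespace Pool.Agent.W5h77.MQ

open Pool.Agent.H914 Pool.Agent.H914.VarClass Pool.Agent.H914.VarClass.Obj Pool.Agent.W492.BB
  Pool.Agent.W550.Corr Pool.Agent.TH133 Pool.Agent.X308.S Pool.Agent.Y148.BB Pool.Agent.W5h86.MU

set_option linter.unusedSectionVars false

variable {k : Type u} [Field k] {𝒱 : VarClass k} {C : TheoryData.{u, v, 0} 𝒱 ℚ}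
  [hC : IsChowProj C] {X Y Z W V M : 𝒱.Obj} {G : Type} [Group G]

/-- The function `g ↦ deg (z · g^* w)` on the group. -/
def RepOn (C : TheoryData.{u, v, 0} 𝒱 ℚ) {Y : 𝒱.Obj} (b : G →* Aut Y) (f : G → ℚ) : Prop :=
  ∃ (c : ℤ) (z w : C.A Y), z ∈ C.gr Y c ∧ w ∈ C.gr Y (Y.dim - c) ∧
    ∀ g, HasDegree C (z * C.pull (b g).hom w) (f g)

include hC

lemma RepOn.prod {b : G →* Aut Y} {b' : G →* Aut Z} {f f' : G → ℚ} (h : RepOn C b f)
    (h' : RepOn C b' f') : RepOn C (pAct b b') (fun g => f g * f' g) := by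
  obtain ⟨c, z, w, hz, hw, hf⟩ := h
  obtain ⟨c', z', w', hz', hw', hf'⟩ := h'
  refine ⟨c + c', C.ext z z', C.ext w w', ext_mem' hz hz', ?_, fun g => ?_⟩
  · have h1 := ext_mem' hw hw'
    have e1 : (Y.dim : ℤ) - c + (Z.dim - c') = (Y.prod Z).dim - (c + c') := by
      rw [dim_prod]; push_cast; ring
    rwa [e1] at h1
  · have h1 : C.pull (prodMap (b g).hom (b' g).hom) (C.ext w w') =
        C.ext (C.pull (b g).hom w) (C.pull (b' g).hom w') := pull_ext C _ _ _ _
    have h2 : C.ext z z' * C.pull (prodMap (b g).hom (b' g).hom) (C.ext w w') =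
        C.ext (z * C.pull (b g).hom w) (z' * C.pull (b' g).hom w') := by
      rw [h1, ext_mul_ext]
    have h3 := hd_ext (hf g) (hf' g)
    rw [← h2] at h3
    exact h3

lemma RepOn.iso {b : G →* Aut Y} {b' : G →* Aut Z} {f : G → ℚ} (h : RepOn C b f)
    (i : EqIso b b') : RepOn C b' f := by
  obtain ⟨c, z, w, hz, hw, hf⟩ := h
  refine ⟨c, C.pull i.ψ z, C.pull i.ψ w, C.pull_mem _ hz, ?_, fun g => ?_⟩
  · rw [← i.dim]
    exact C.pull_mem _ hw
  · have h1 : C.pull i.ψ z * C.pull (b' g).hom (C.pull i.ψ w) =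
        C.pull i.ψ (z * C.pull (b g).hom w) := by
      have h2 : C.pull (b' g).hom (C.pull i.ψ w) = C.pull i.ψ (C.pull (b g).hom w) :=
        ((C.pull_comp (b' g).hom i.ψ w).symm.trans (congrArg (fun t => C.pull t w) (i.eqv' g))).trans
          (C.pull_comp i.ψ (b g).hom w)
      rw [map_mul]
      exact congrArg (fun t => C.pull i.ψ z * t) h2
    exact h1 ▸ hd_pull i.ψ i.φ i.ψφ i.φψ (hf g)

lemma RepOn.one (b : G →* Aut Y) : RepOn C b (fun _ => 1) := by
  obtain ⟨o, ho, h1⟩ := exists_pt (C := C) Y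
  refine ⟨0, 1, o, C.one_mem Y, by rw [sub_zero]; exact ho, fun g => ?_⟩
  rw [one_mul]
  exact hd_pull (b g).hom (b g).inv (Iso.hom_inv_id (b g)) (Iso.inv_hom_id (b g)) h1

lemma top_deg {x y : C.A (Y.prod Y)} (hx : x ∈ C.gr (Y.prod Y) Y.dim)
    (hy : y ∈ C.gr (Y.prod Y) Y.dim) : ∃ q, HasDegree C (x * y) q := by
  apply exists_hasDegree
  have h1 := C.mul_mem hx hy
  have e1 : (Y.dim : ℤ) + Y.dim = (Y.prod Y).dim := by rw [dim_prod]; push_cast; ring
  rwa [e1] at h1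

lemma mem_ext_left {o : C.A Y} (ho : o ∈ C.gr Y Y.dim) :
    C.ext o (1 : C.A Y) ∈ C.gr (Y.prod Y) Y.dim := by
  have h1 := ext_mem' ho (C.one_mem Y)
  rwa [add_zero] at h1

lemma mem_ext_right {o : C.A Y} (ho : o ∈ C.gr Y Y.dim) :
    C.ext (1 : C.A Y) o ∈ C.gr (Y.prod Y) Y.dim := by
  have h1 := ext_mem' (C.one_mem Y) ho
  rwa [zero_add] at h1

variable {K : Type w} [Field K] (H : WeilTheoryData.{u, v, w} C K) [hH : IsWeilProj H]

include hH

lemma const_left {x : C.A (Y.prod Y)} (hx : x ∈ C.gr (Y.prod Y) Y.dim) :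
    ∃ s : ℚ, ∀ o : C.A Y, o ∈ C.gr Y Y.dim → HasDegree C o 1 →
      HasDegree C (x * C.ext o 1) s := by
  have h1 := C.push_mem (fst Y Y) hx
  have e1 : (Y.dim : ℤ) + 1 * ((Y.dim : ℤ) - (Y.prod Y).dim) = 0 := by
    rw [dim_prod]; push_cast; ring
  rw [e1] at h1
  obtain ⟨s, hs⟩ := hC.gr_zero Y _ h1
  refine ⟨s, fun o ho hd => ?_⟩
  obtain ⟨t, ht⟩ := top_deg hx (mem_ext_left ho)
  have h2 : C.push (fst Y Y) (x * C.ext o 1) = s • o := by
    rw [TheoryData.ext, map_one, mul_one, C.proj_right, hs, smul_mul_assoc, one_mul]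
  have h3 := hasDegree_push (fst Y Y) ht
  rw [h2] at h3
  have h4 := hd_smul s hd
  rw [mul_one] at h4
  rw [hd_unique H h3 h4] at ht
  exact ht

lemma const_right {x : C.A (Y.prod Y)} (hx : x ∈ C.gr (Y.prod Y) Y.dim) :
    ∃ s : ℚ, ∀ o : C.A Y, o ∈ C.gr Y Y.dim → HasDegree C o 1 →
      HasDegree C (C.ext 1 o * x) s := by
  have h1 := C.push_mem (snd Y Y) hx
  have e1 : (Y.dim : ℤ) + 1 * ((Y.dim : ℤ) - (Y.prod Y).dim) = 0 := by
    rw [dim_prod]; push_cast; ring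
  rw [e1] at h1
  obtain ⟨s, hs⟩ := hC.gr_zero Y _ h1
  refine ⟨s, fun o ho hd => ?_⟩
  obtain ⟨t, ht⟩ := top_deg (mem_ext_right ho) hx
  have h2 : C.push (snd Y Y) (C.ext 1 o * x) = s • o := by
    rw [TheoryData.ext, map_one, one_mul, C.proj_left, hs, mul_smul_comm, mul_one]
  have h3 := hasDegree_push (snd Y Y) ht
  rw [h2] at h3
  have h4 := hd_smul s hd
  rw [mul_one] at h4
  rw [hd_unique H h3 h4] at ht
  exact ht

/-- The functions `λ (β - q)`, `β` the function given by a pair of self-correspondences of degree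
zero. -/
lemma rep_sub (b : G →* Aut Y) {z w : C.A (Y.prod Y)} (hz : z ∈ C.gr (Y.prod Y) Y.dim)
    (hw : w ∈ C.gr (Y.prod Y) Y.dim) {β : G → ℚ}
    (hβ : ∀ g, HasDegree C (z * C.pull (prodMap (b g).hom (b g).hom) w) (β g)) (q l : ℚ) :
    RepOn C (pAct b b) (fun g => l * (β g - q)) := by
  obtain ⟨o, ho, hd⟩ := exists_pt (C := C) Y
  obtain ⟨s1, hs1⟩ := const_left H hz
  obtain ⟨s2, hs2⟩ := const_right H hw
  have ho' : ∀ g, C.pull (b g).hom o ∈ C.gr Y Y.dim ∧ HasDegree C (C.pull (b g).hom o) 1 :=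
    fun g => ⟨C.pull_mem _ ho, hd_pull (b g).hom (b g).inv (Iso.hom_inv_id (b g))
      (Iso.inv_hom_id (b g)) hd⟩
  have ho'' : ∀ g, C.pull (b g).inv o ∈ C.gr Y Y.dim ∧ HasDegree C (C.pull (b g).inv o) 1 :=
    fun g => ⟨C.pull_mem _ ho, hd_pull (b g).inv (b g).hom (Iso.inv_hom_id (b g))
      (Iso.hom_inv_id (b g)) hd⟩
  have edim : ((Y.prod Y).dim : ℤ) - Y.dim = Y.dim := by rw [dim_prod]; push_cast; ring
  set t : ℚ := 1 - s1 with ht
  set c : ℚ := q + t * s2 with hc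
  refine ⟨Y.dim, l • (z + t • C.ext 1 o), w + (-c) • C.ext o 1,
    Submodule.smul_mem _ _ (Submodule.add_mem _ hz (Submodule.smul_mem _ _ (mem_ext_right ho))),
    ?_, fun g => ?_⟩
  · rw [edim]
    exact Submodule.add_mem _ hw (Submodule.smul_mem _ _ (mem_ext_left ho))
  · set D := prodMap (b g).hom (b g).hom with hD
    have h1 : C.pull D (C.ext o 1) = C.ext (C.pull (b g).hom o) 1 := by
      rw [hD, pull_ext C, map_one]
    have h2 : HasDegree C (z * C.pull D (C.ext o 1)) s1 := by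
      rw [h1]
      exact hs1 _ (ho' g).1 (ho' g).2
    have h3 : HasDegree C (C.ext 1 o * C.pull D w) s2 := by
      have h4 := hs2 _ (ho'' g).1 (ho'' g).2
      have h5 : C.pull D (C.ext 1 (C.pull (b g).inv o) * w) = C.ext 1 o * C.pull D w := by
        rw [map_mul, hD, pull_ext C, map_one, ← C.pull_comp, Iso.hom_inv_id (b g), C.pull_id]
      rw [← h5]
      apply hd_pull D (prodMap (b g).inv (b g).inv) _ _ h4
      · rw [hD, pm_comp, Iso.hom_inv_id (b g), pm_id]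
      · rw [hD, pm_comp, Iso.inv_hom_id (b g), pm_id]
    have h4 : HasDegree C (C.ext 1 o * C.pull D (C.ext o 1)) 1 := by
      rw [h1, ext_mul_ext, one_mul, mul_one]
      have := hd_ext (ho' g).2 hd
      rwa [one_mul] at this
    have h5 : (l • (z + t • C.ext 1 o)) * C.pull D (w + (-c) • C.ext o 1) =
        l • ((z * C.pull D w + t • (C.ext 1 o * C.pull D w)) +
          (-c) • (z * C.pull D (C.ext o 1) + t • (C.ext 1 o * C.pull D (C.ext o 1)))) := by
      rw [map_add, map_smul, smul_mul_assoc, add_mul, mul_add, mul_add, mul_smul_comm,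
        mul_smul_comm, smul_mul_assoc, smul_mul_assoc, smul_add (-c) (z * _)]
      congr 1
      abel
    have h6 := hd_smul l (hd_add (hd_add (hβ g) (hd_smul t h3))
      (hd_smul (-c) (hd_add h2 (hd_smul t h4))))
    have h7 : l * (β g + t * s2 + -c * (s1 + t * 1)) = l * (β g - q) := by
      rw [hc, ht]; ring
    rw [h7] at h6
    have h8 := h5 ▸ h6
    exact h8

end Pool.Agent.W5h77.MQ
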