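import Pool.Agent.W5h77.MQ.Rep

/-!
# Interpolation on the group
-/

set_option autoImplicit false

open CategoryTheory AlgebraicGeometry

universe u v w

namespace Pool.Agent.W5h77.MQ

open Pool.Agent.H914 Pool.Agent.H914.VarClass Pool.Agent.H914.VarClass.Obj Pool.Agent.W492.BB
  Pool.Agent.W550.Corr Pool.Agent.TH133 Pool.Agent.X308.S Pool.Agent.Y148.BB Pool.Agent.W5h86.MU

set_option linter.unusedSectionVars false

variable {k : Type u} [Field k] {𝒱 : VarClass k} {C : TheoryData.{u, v, 0} 𝒱 ℚ}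
  [hC : IsChowProj C] {X Y Z W V M : 𝒱.Obj} {G : Type} [Group G]

include hC

/-- Functions given by classes on large powers. -/
def RepN (C : TheoryData.{u, v, 0} 𝒱 ℚ) (a : G →* Aut X) (N : ℕ) (f : G → ℚ) : Prop :=
  ∃ j : ℕ, N ≤ j ∧ RepOn C (powAct a j) f

lemma RepN.one (a : G →* Aut X) (N : ℕ) : RepN C a N (fun _ => 1) := ⟨N, le_rfl, RepOn.one _⟩

lemma RepN.mul {a : G →* Aut X} {N N' : ℕ} {f f' : G → ℚ} (h : RepN C a N f)
    (h' : RepN C a N' f') : RepN C a N (fun g => f g * f' g) := by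
  obtain ⟨j, hj, h1⟩ := h
  obtain ⟨j', hj', h2⟩ := h'
  exact ⟨j' + j + 1, by omega, (h1.prod h2).iso (powIso a j' j)⟩

lemma RepN.prod {a : G →* Aut X} {N : ℕ} {ι : Type*} (s : Finset ι) (F : ι → G → ℚ)
    (h : ∀ i ∈ s, RepN C a N (F i)) : RepN C a N (fun g => ∏ i ∈ s, F i g) := by
  classical
  induction s using Finset.induction_on with
  | empty =>
    simp only [Finset.prod_empty]
    exact RepN.one a N
  | insert i s hi ih =>
    simp only [Finset.prod_insert hi]
    exact (h i (Finset.mem_insert_self i s)).mul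
      (ih fun j hj => h j (Finset.mem_insert_of_mem hj))

variable {K : Type w} [Field K] (H : WeilTheoryData.{u, v, w} C K) [hH : IsWeilProj H]

include hH

/-- A function which vanishes at a given moving element and is one at the elements which do not
move. -/
lemma exists_kill (a : G →* Aut X) {g' : G} (h : Moves C (hm a) g') : ∃ F : G → ℚ,
    RepN C a 0 F ∧ F g' = 0 ∧ ∀ g, ¬ Moves C (hm a) g → F g = 1 := by
  obtain ⟨m, z, w, hz, hw, q, r, hqr, hq, hr⟩ := h
  have e0 : ∀ g, prodMap (diag (hm a) m g) (diag (hm a) m g) =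
      prodMap (powAct a m g).hom (powAct a m g).hom := by
    intro g
    rw [powAct_hom]
    rfl
  have hz' : z ∈ C.gr _ ((power X m).dim : ℤ) := hz
  have hw' : w ∈ C.gr _ ((power X m).dim : ℤ) := hw
  have hex : ∀ g, ∃ β : ℚ,
      HasDegree C (z * C.pull (prodMap (powAct a m g).hom (powAct a m g).hom) w) β :=
    fun g => top_deg hz' (C.pull_mem _ hw')
  choose β hβ using hex
  have hq' : β g' = q := by
    have h1 := hβ g'
    rw [← e0] at h1
    exact hd_unique H h1 hq
  have hn : ∀ g, ¬ Moves C (hm a) g → β g = r := by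
    intro g hg
    by_contra hne
    apply hg
    have h1 := hβ g
    rw [← e0] at h1
    exact ⟨m, z, w, hz, hw, β g, r, hne, h1, hr⟩
  refine ⟨fun g => (r - q)⁻¹ * (β g - q), ?_, ?_, fun g hg => ?_⟩
  · exact ⟨_, Nat.zero_le _, (rep_sub H (powAct a m) hz' hw' hβ q (r - q)⁻¹).iso (powIso a m m)⟩
  · change (r - q)⁻¹ * (β g' - q) = 0
    rw [hq', sub_self, mul_zero]
  · change (r - q)⁻¹ * (β g - q) = 1
    rw [hn g hg]
    exact inv_mul_cancel₀ (sub_ne_zero.2 (Ne.symm hqr))

open scoped Classical in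
/-- **Interpolation.** -/
theorem exists_sep [Finite G] (a : G →* Aut X) (N : ℕ) :
    RepN C a N (fun g => if Moves C (hm a) g then 0 else 1) := by
  have := Fintype.ofFinite G
  have h1 : ∀ g' : G, ∃ F : G → ℚ, Moves C (hm a) g' →
      RepN C a 0 F ∧ F g' = 0 ∧ ∀ g, ¬ Moves C (hm a) g → F g = 1 := by
    intro g'
    by_cases h : Moves C (hm a) g'
    · obtain ⟨F, hF⟩ := exists_kill H a h
      exact ⟨F, fun _ => hF⟩
    · exact ⟨0, fun h' => absurd h' h⟩
  choose F hF using h1
  have h2 := (RepN.one (C := C) a N).mul (RepN.prod (C := C) (N := 0)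
    (Finset.univ.filter (fun g' => Moves C (hm a) g')) F
    (fun g' hg' => (hF g' (Finset.mem_filter.1 hg').2).1))
  have h3 : (fun g => (1 : ℚ) * ∏ i ∈ Finset.univ.filter (fun g' => Moves C (hm a) g'), F i g) =
      fun g => if Moves C (hm a) g then 0 else 1 := by
    funext g
    rw [one_mul]
    split_ifs with hg
    · exact Finset.prod_eq_zero (Finset.mem_filter.2 ⟨Finset.mem_univ g, hg⟩) (hF g hg).2.1
    · exact Finset.prod_eq_one fun g' hg' => (hF g' (Finset.mem_filter.1 hg').2).2.2 g hg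
  rw [h3] at h2
  exact h2

lemma not_moves_one (a : G →* Aut X) : ¬ Moves C (hm a) 1 := by
  rintro ⟨m, z, w, hz, hw, q, r, hqr, hq, hr⟩
  apply hqr
  have e0 : prodMap (diag (hm a) m 1) (diag (hm a) m 1) = 𝟙 ((power X m).prod (power X m)) := by
    have h1 : diag (hm a) m 1 = 𝟙 (power X m) := by
      have h2 := powAct_hom a m 1
      rw [map_one] at h2
      exact h2.symm
    have h3 : prodMap (𝟙 (power X m)) (𝟙 (power X m)) =
      𝟙 ((power X m).prod (power X m)) := pm_id _ _
    rw [h1, h3]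
  rw [e0] at hq
  have h4 : C.up (𝟙 ((power X m).prod (power X m))) w = w := C.pull_id w
  rw [h4] at hq
  exact hd_unique H hq hr

end Pool.Agent.W5h77.MQ
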