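import Pool.Agent.W5h77.MQ.Corner

/-!
# Murre's conjectures are invariant under isomorphisms of motives
-/

set_option autoImplicit false

open CategoryTheory AlgebraicGeometry

universe u v w

namespace Pool.Agent.W5h77.MQ

open Pool.Agent.H914 Pool.Agent.H914.VarClass Pool.Agent.H914.VarClass.Obj Pool.Agent.W492.BB
  Pool.Agent.W550.Corr Pool.Agent.TH133 Pool.Agent.X308.S Pool.Agent.Y148.BB Pool.Agent.W5h86.MU

set_option linter.unusedSectionVars false

variable {k : Type u} [Field k] {𝒱 : VarClass k} {C : TheoryData.{u, v, 0} 𝒱 ℚ}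
  [hC : IsChowProj C] {K : Type w} [Field K]
  {H : WeilTheoryData.{u, v, w} C K} [hH : IsWeilProj H] {X Y Z W : 𝒱.Obj}

/-- `A` and `B` are inverse isomorphisms between the motives `(X, p)` and `(Z, q)`, of degree `c`
as a correspondence from `X` to `Z`. -/
structure IsoM (C : TheoryData.{u, v, 0} 𝒱 ℚ) (p : C.A (X.prod X)) (q : C.A (Z.prod Z)) (c : ℤ)
    (A : C.A (X.prod Z)) (B : C.A (Z.prod X)) : Prop where
  hA : A ∈ C.gr (X.prod Z) (X.dim + c)
  hB : B ∈ C.gr (Z.prod X) (Z.dim + -c)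
  AB : C.comp A B = p
  BA : C.comp B A = q
  pA : C.comp p A = A
  Bp : C.comp B p = B

variable {p : C.A (X.prod X)} {q : C.A (Z.prod Z)} {c : ℤ} {A : C.A (X.prod Z)}
  {B : C.A (Z.prod X)}

include hC

lemma IsoM.Aq (h : IsoM C p q c A B) : C.comp A q = A := by
  rw [← h.BA, ← comp_assoc, h.AB, h.pA]

lemma IsoM.qB (h : IsoM C p q c A B) : C.comp q B = B := by
  rw [← h.BA, comp_assoc, h.AB, h.Bp]

lemma IsoM.symm (h : IsoM C p q c A B) : IsoM C q p (-c) B A where
  hA := h.hB
  hB := by rw [neg_neg]; exact h.hA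
  AB := h.BA
  BA := h.AB
  pA := h.qB
  Bp := h.Aq

include hH

lemma mck_comp_right {n : ℤ} {π : ℤ → C.A (X.prod X)} (h : IsMotiveCK H p n π) (i : ℤ) :
    C.comp p (π i) = π i := mck_right (p := p) (π := π) h i

lemma mck_comp_left {n : ℤ} {π : ℤ → C.A (X.prod X)} (h : IsMotiveCK H p n π) (i : ℤ) :
    C.comp (π i) p = π i := mck_left (p := p) (π := π) h i

/-- The transported decomposition. -/
noncomputable def transp (C : TheoryData.{u, v, 0} 𝒱 ℚ) {X Z : 𝒱.Obj} (A : C.A (X.prod Z))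
    (B : C.A (Z.prod X)) (ρ : ℤ → C.A (Z.prod Z)) (i : ℤ) : C.A (X.prod X) :=
  C.comp (C.comp A (ρ i)) B

lemma transp_mul {n : ℤ} {ρ : ℤ → C.A (Z.prod Z)} (h : IsoM C p q c A B)
    (hρ : IsMotiveCK H q n ρ) (i j : ℤ) : C.comp (transp C A B ρ i) (transp C A B ρ j) =
      C.comp (C.comp A (C.comp (ρ i) (ρ j))) B := by
  unfold transp
  rw [comp_assoc C (C.comp A (ρ i)) B, ← comp_assoc C B (C.comp A (ρ j)) B,
    ← comp_assoc C B A (ρ j), h.BA, mck_comp_right hρ, ← comp_assoc C (C.comp A (ρ i)),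
    comp_assoc C A (ρ i) (ρ j)]

lemma act_transp (ρ : ℤ → C.A (Z.prod Z)) (i : ℤ) (x : C.A X) :
    C.act (transp C A B ρ i) x = C.act B (C.act (ρ i) (C.act A x)) := by
  rw [transp, C.act_comp, C.act_comp]

lemma actH_transp (ρ : ℤ → C.A (Z.prod Z)) (i : ℤ) (x : H.A X) :
    H.act (H.cl (transp C A B ρ i)) x = H.act (H.cl B) (H.act (H.cl (ρ i)) (H.act (H.cl A) x)) := by
  rw [transp, actH_comp, actH_comp]

/-- Chow-Kunneth decompositions are transported by isomorphisms. -/
lemma transp_ck {n n' : ℤ} {ρ : ℤ → C.A (Z.prod Z)} (h : IsoM C p q c A B)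
    (hn : n' = n - (Z.dim - X.dim - c)) (hρ : IsMotiveCK H q n' ρ) :
    IsMotiveCK H p n (transp C A B ρ) where
  finite := by
    apply hρ.finite.subset
    intro i hi hcon
    apply hi
    rw [transp, hcon, comp_zero, zero_comp]
  deg i := by
    have h1 : ρ i ∈ C.gr (Z.prod Z) (Z.dim + 0) := by rw [add_zero]; exact hρ.deg i
    have h2 := comp_mem C (comp_mem C h.hA h1) h.hB
    have e1 : (X.dim : ℤ) + (c + 0 + -c) = X.dim := by ring
    rw [e1] at h2
    exact h2
  idem i := by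
    rw [transp_mul h hρ, hρ.idem]
    rfl
  orth i j hij := by
    rw [transp_mul h hρ, hρ.orth i j hij, comp_zero, zero_comp]
  sum := by
    have hfin : (Function.support ρ).Finite := hρ.finite
    have h1 : finsum ρ = ∑ i ∈ hfin.toFinset, ρ i :=
      finsum_eq_sum_of_support_subset ρ (fun i hi => hfin.mem_toFinset.2 hi)
    have h2 : finsum (transp C A B ρ) = ∑ i ∈ hfin.toFinset, transp C A B ρ i := by
      apply finsum_eq_sum_of_support_subset
      intro i hi
      refine hfin.mem_toFinset.2 fun hcon => hi ?_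
      rw [transp, hcon, comp_zero, zero_comp]
    change finsum (transp C A B ρ) = p
    rw [h2]
    unfold transp
    rw [← sum_comp, ← comp_sum, ← h1]
    have h3 : finsum ρ = q := hρ.sum
    rw [h3, h.Aq, h.AB]
  act_self i a ha := by
    have h1 : H.act (H.cl A) a ∈ H.gr Z (2 * Z.dim - (i - 2 * n')) := by
      have h2 := actH_mem H h.hA ha
      have e1 : 2 * (X.dim : ℤ) - (i - 2 * n) + 2 * c = 2 * Z.dim - (i - 2 * n') := by
        rw [hn]; ring
      rwa [e1] at h2
    rw [actH_transp, hρ.act_self i _ h1, ← actH_comp, ← actH_comp, h.qB, h.AB]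
  act_ne i m a hm ha := by
    have h1 : H.act (H.cl A) a ∈ H.gr Z (m + 2 * c) := actH_mem H h.hA ha
    rw [actH_transp, hρ.act_ne i (m + 2 * c) _ (by rw [hn]; omega) h1, TheoryData.act_map_zero]

lemma transp_B {n n' : ℤ} {ρ : ℤ → C.A (Z.prod Z)} (h : IsoM C p q c A B)
    (hn : n' = n - (Z.dim - X.dim - c)) (hρ : MotiveB C n' ρ) :
    MotiveB C n (transp C A B ρ) := by
  intro l i hi z hz
  have h1 : C.act A z ∈ C.gr Z (Z.dim - (l - n')) := by
    have h2 := act_mem' C h.hA hz
    have e1 : (X.dim : ℤ) - (l - n) + c = Z.dim - (l - n') := by rw [hn]; ring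
    rwa [e1] at h2
  rw [act_transp (H := H), hρ l i hi _ h1, TheoryData.act_map_zero]

lemma transp_D {n n' : ℤ} {ρ : ℤ → C.A (Z.prod Z)} (h : IsoM C p q c A B)
    (hn : n' = n - (Z.dim - X.dim - c)) (hρ : MotiveD H n' ρ) :
    MotiveD H n (transp C A B ρ) := by
  intro l z hz hcl
  have h1 : C.act A z ∈ C.gr Z (Z.dim - (l - n')) := by
    have h2 := act_mem' C h.hA hz
    have e1 : (X.dim : ℤ) - (l - n) + c = Z.dim - (l - n') := by rw [hn]; ring
    rwa [e1] at h2
  have h3 : H.cl (C.act A z) = 0 := by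
    rw [cl_act, hcl, TheoryData.act_map_zero]
  rw [act_transp (H := H), hρ l _ h1 h3, TheoryData.act_map_zero]

/-- The filtration and the transport. -/
lemma motFil_transp {n n' : ℤ} {π : ℤ → C.A (X.prod X)} (h : IsoM C p q c A B)
    (hn : n' = n - (Z.dim - X.dim - c)) (hπ : IsMotiveCK H p n π) {l ν : ℤ} {x : C.A X}
    (hx : x ∈ motFil C n π l ν) : C.act A x ∈ motFil C n' (transp C B A π) l ν := by
  have h1 : motFil C n π l ν ≤ (motFil C n' (transp C B A π) l ν).comap (C.actL A) := by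
    unfold motFil
    refine iSup_le fun ⟨i, hi⟩ => ?_
    rintro _ ⟨y, hy, rfl⟩
    rw [Submodule.mem_comap]
    apply Submodule.mem_iSup_of_mem (⟨i, hi⟩ : {i : ℤ // 2 * l + ν ≤ i})
    refine ⟨C.act A y, ?_, ?_⟩
    · have h2 := act_mem' C h.hA hy
      have e1 : (X.dim : ℤ) - (l - n) + c = Z.dim - (l - n') := by rw [hn]; ring
      rwa [e1] at h2
    · change C.act (transp C B A π i) (C.act A y) = C.act A (C.act (π i) y)
      rw [act_transp (H := H), ← C.act_comp A B, h.AB, ← C.act_comp p (π i),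
        mck_comp_right hπ]
  exact h1 hx

lemma motFil_self {n : ℤ} {π : ℤ → C.A (X.prod X)} (hπ : IsMotiveCK H p n π) {l ν : ℤ} {x : C.A X}
    (hx : x ∈ motFil C n π l ν) : C.act p x = x := by
  have h1 : motFil C n π l ν ≤ LinearMap.ker (C.actL p - LinearMap.id) := by
    unfold motFil
    refine iSup_le fun ⟨i, hi⟩ => ?_
    rintro _ ⟨y, hy, rfl⟩
    rw [LinearMap.mem_ker, LinearMap.sub_apply, sub_eq_zero]
    change C.act p (C.act (π i) y) = C.act (π i) y
    rw [← C.act_comp, mck_comp_left hπ]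
  have h2 := h1 hx
  rw [LinearMap.mem_ker, LinearMap.sub_apply, sub_eq_zero] at h2
  exact h2

lemma transp_transp {n : ℤ} {π : ℤ → C.A (X.prod X)} (h : IsoM C p q c A B)
    (hπ : IsMotiveCK H p n π) : transp C A B (transp C B A π) = π := by
  funext i
  unfold transp
  rw [← comp_assoc C A (C.comp B (π i)) A, ← comp_assoc C A B (π i), h.AB, comp_assoc C _ A B,
    h.AB, mck_comp_right hπ, mck_comp_left hπ]

/-- **Murre's conjectures are invariant under isomorphisms.** -/
theorem murre_of_iso {n n' : ℤ} (h : IsoM C p q c A B) (hn : n' = n - (Z.dim - X.dim - c))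
    (hM : MurreFor H q n') : MurreFor H p n := by
  have hn' : n = n' - (X.dim - Z.dim - -c) := by rw [hn]; ring
  refine ⟨?_, ?_⟩
  · obtain ⟨ρ, h1, h2, h3⟩ := hM.exists_ck
    exact ⟨transp C A B ρ, transp_ck h hn h1, transp_B (H := H) h hn h2, transp_D h hn h3⟩
  · have key : ∀ π π' : ℤ → C.A (X.prod X), IsMotiveCK H p n π → IsMotiveCK H p n π' →
        ∀ l ν : ℤ, motFil C n π l ν ≤ motFil C n π' l ν := by
      intro π π' h1 h2 l ν x hx
      have h3 := motFil_transp h hn h1 hx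
      rw [hM.indep _ _ (transp_ck h.symm hn' h1) (transp_ck h.symm hn' h2) l ν] at h3
      have h4 := motFil_transp h.symm hn' (transp_ck h.symm hn' h2) h3
      rw [transp_transp h h2, ← C.act_comp, h.AB, motFil_self h1 hx] at h4
      exact h4
    exact fun π π' h1 h2 l ν => le_antisymm (key π π' h1 h2 l ν) (key π' π h2 h1 l ν)

end Pool.Agent.W5h77.MQ
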